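import Mathlib

/-!
A small family of labels: for every state there is a label avoiding it at every level.
-/

namespace H799M

open scoped BigOperators
open Finset

lemma card_avoid (b m : ℕ) (st : Fin m → Fin b) :
    (Finset.univ.filter fun lam : Fin m → Fin b => ∀ l, lam l ≠ st l).card = (b - 1) ^ m := by
  classical
  have h : (Finset.univ.filter fun lam : Fin m → Fin b => ∀ l, lam l ≠ st l)
      = Fintype.piFinset fun l => Finset.univ.erase (st l) := by
    ext lam
    simp [Fintype.mem_piFinset]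
  rw [h, Fintype.card_piFinset]
  simp

lemma exists_cover_nat (b m N : ℕ)
    (h : b ^ m * (b ^ m - (b - 1) ^ m) ^ N < (b ^ m) ^ N) :
    ∃ Λ : Fin N → (Fin m → Fin b), ∀ st : Fin m → Fin b, ∃ a, ∀ l, Λ a l ≠ st l := by
  classical
  by_contra hcon
  push Not at hcon
  have hbad : ∀ st : Fin m → Fin b,
      (Finset.univ.filter fun lam : Fin m → Fin b => ∃ l, lam l = st l).card
        = b ^ m - (b - 1) ^ m := by
    intro st
    have h1 := Finset.card_filter_add_card_filter_not
      (s := (Finset.univ : Finset (Fin m → Fin b))) (fun lam => ∀ l, lam l ≠ st l)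
    rw [card_avoid, Finset.card_univ, Fintype.card_fun, Fintype.card_fin, Fintype.card_fin] at h1
    have h2 : (Finset.univ.filter fun lam : Fin m → Fin b => ∃ l, lam l = st l)
        = Finset.univ.filter fun lam : Fin m → Fin b => ¬ ∀ l, lam l ≠ st l := by
      refine Finset.filter_congr fun lam _ => ?_
      push Not
      exact Iff.rfl
    rw [h2]
    omega
  have hsub : (Finset.univ : Finset (Fin N → (Fin m → Fin b)))
      ⊆ (Finset.univ : Finset (Fin m → Fin b)).biUnion fun st =>
        Fintype.piFinset fun _ : Fin N =>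
          Finset.univ.filter fun lam : Fin m → Fin b => ∃ l, lam l = st l := by
    intro Λ _
    obtain ⟨st, hst⟩ := hcon Λ
    rw [Finset.mem_biUnion]
    refine ⟨st, Finset.mem_univ _, ?_⟩
    rw [Fintype.mem_piFinset]
    intro a
    rw [Finset.mem_filter]
    exact ⟨Finset.mem_univ _, hst a⟩
  have h1 := (Finset.card_le_card hsub).trans Finset.card_biUnion_le
  have h2 : ∀ st : Fin m → Fin b, (Fintype.piFinset fun _ : Fin N =>
      Finset.univ.filter fun lam : Fin m → Fin b => ∃ l, lam l = st l).card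
      = (b ^ m - (b - 1) ^ m) ^ N := by
    intro st
    rw [Fintype.card_piFinset]
    simp [hbad]
  simp only [h2] at h1
  rw [Finset.sum_const, Finset.card_univ, Finset.card_univ, Fintype.card_fun, Fintype.card_fun,
    Fintype.card_fin, Fintype.card_fin, Fintype.card_fin, smul_eq_mul] at h1
  omega

/-- The number of labels used for `m` levels. -/
noncomputable def NN (r m : ℕ) : ℕ := ⌊(m : ℝ) * (r + 1) * (1 + 1 / (r : ℝ)) ^ m⌋₊ + 1

theorem exists_cover (r m : ℕ) (hr : 1 ≤ r) :
    ∃ Λ : Fin (NN r m) → (Fin m → Fin (r + 1)), ∀ st : Fin m → Fin (r + 1),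
      ∃ a, ∀ l, Λ a l ≠ st l := by
  refine exists_cover_nat (r + 1) m (NN r m) ?_
  set N := NN r m with hN
  have hr0 : (0 : ℝ) < r := by exact_mod_cast hr
  set b : ℝ := (r : ℝ) + 1 with hb
  have hb0 : 0 < b := by positivity
  set p : ℝ := (r / b) ^ m with hp
  have hp0 : 0 < p := by positivity
  have hp1 : p ≤ 1 := pow_le_one₀ (by positivity) (by rw [div_le_one hb0, hb]; linarith)
  have hpinv : p * (1 + 1 / (r : ℝ)) ^ m = 1 := by
    rw [hp, ← mul_pow]
    have : (r : ℝ) / b * (1 + 1 / r) = 1 := by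
      rw [hb]; field_simp
    rw [this, one_pow]
  have hNgt : (m : ℝ) * (r + 1) * (1 + 1 / (r : ℝ)) ^ m < N := by
    rw [hN, NN]
    push_cast
    exact Nat.lt_floor_add_one _
  have hcast : ((((r + 1) ^ m - (r + 1 - 1) ^ m : ℕ)) : ℝ) = b ^ m * (1 - p) := by
    have h1 : (r + 1 - 1) ^ m ≤ (r + 1) ^ m := Nat.pow_le_pow_left (by omega) m
    rw [Nat.cast_sub h1]
    have h2 : r + 1 - 1 = r := by omega
    rw [h2, hp, div_pow]
    push_cast
    rw [← hb]
    field_simp
  have key : b ^ m * (1 - p) ^ N < 1 := by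
    have h1 : (1 - p) ^ N ≤ Real.exp (-(p * N)) := by
      have h2 : 1 - p ≤ Real.exp (-p) := by
        have := Real.add_one_le_exp (-p)
        linarith
      calc (1 - p) ^ N ≤ Real.exp (-p) ^ N := pow_le_pow_left₀ (by linarith) h2 N
        _ = Real.exp (-(p * N)) := by
            rw [← Real.exp_nat_mul]
            congr 1
            ring
    have h3 : (m : ℝ) * b < p * N := by
      have h4 := mul_lt_mul_of_pos_left hNgt hp0
      calc (m : ℝ) * b = p * ((m : ℝ) * (r + 1) * (1 + 1 / (r : ℝ)) ^ m) := by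
            rw [show p * ((m : ℝ) * (r + 1) * (1 + 1 / (r : ℝ)) ^ m)
              = (m : ℝ) * (r + 1) * (p * (1 + 1 / (r : ℝ)) ^ m) by ring, hpinv, mul_one]
        _ < p * N := h4
    have h5 : b ^ m ≤ Real.exp (m * b) := by
      rw [Real.exp_nat_mul]
      refine pow_le_pow_left₀ hb0.le ?_ m
      have := Real.add_one_le_exp b
      linarith
    have h6 : 0 ≤ (1 - p) ^ N := pow_nonneg (by linarith) N
    calc b ^ m * (1 - p) ^ N ≤ Real.exp (m * b) * Real.exp (-(p * N)) :=
          mul_le_mul h5 h1 h6 (Real.exp_pos _).le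
      _ = Real.exp (m * b - p * N) := by
          rw [← Real.exp_add]
          congr 1
      _ < 1 := by
          rw [Real.exp_lt_one_iff]
          linarith
  have hfin : ((((r + 1) ^ m * ((r + 1) ^ m - (r + 1 - 1) ^ m) ^ N : ℕ)) : ℝ)
      < ((((r + 1) ^ m) ^ N : ℕ) : ℝ) := by
    rw [Nat.cast_mul, Nat.cast_pow ((r + 1) ^ m - (r + 1 - 1) ^ m), hcast]
    push_cast
    rw [← hb, mul_pow]
    have h7 : 0 < (b ^ m) ^ N := by positivity
    calc b ^ m * ((b ^ m) ^ N * (1 - p) ^ N) = (b ^ m * (1 - p) ^ N) * (b ^ m) ^ N := by ring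
      _ < 1 * (b ^ m) ^ N := mul_lt_mul_of_pos_right key h7
      _ = (b ^ m) ^ N := one_mul _
  exact_mod_cast hfin

end H799M
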