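import Pool.Agent.Helper799.UnionM.Main
import Pool.Agent.Helper799.UnionL.Euclid

/-!
The pieces of the tree space and their Euclidean embeddings.
-/

namespace H799M

open scoped BigOperators
open Finset H799L

noncomputable section

universe u v

variable {W : Type u} [MetricSpace W] (S : Sys W) {r : ℕ}

/-- The largest distance between corresponding leaves. -/
def hm : ∀ k, TrM r W k → TrM r W k → ℝ
  | 0, t, t' => S.h t t'
  | k + 1, t, t' => Finset.univ.sup' ⟨(0 : Fin (r + 1)), Finset.mem_univ _⟩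
      (fun i => hm k (t i) (t' i))

lemma le_hm {k : ℕ} (t t' : Fin (r + 1) → TrM r W k) (i : Fin (r + 1)) :
    hm S k (t i) (t' i) ≤ hm S (k + 1) (tp t) (tp t') :=
  Finset.le_sup' (fun i => hm S k (t i) (t' i)) (Finset.mem_univ i)

lemma hm_le {k : ℕ} {t t' : Fin (r + 1) → TrM r W k} {ρ : ℝ}
    (h : ∀ i, hm S k (t i) (t' i) ≤ ρ) : hm S (k + 1) (tp t) (tp t') ≤ ρ :=
  Finset.sup'_le _ _ fun i _ => h i

lemma exists_hm {k : ℕ} (t t' : Fin (r + 1) → TrM r W k) :
    ∃ i, hm S (k + 1) (tp t) (tp t') = hm S k (t i) (t' i) := by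
  obtain ⟨i, _, hi⟩ := Finset.exists_mem_eq_sup' (⟨(0 : Fin (r + 1)), Finset.mem_univ _⟩ :
    (Finset.univ : Finset (Fin (r + 1))).Nonempty) (fun i => hm S k (t i) (t' i))
  exact ⟨i, hi⟩

lemma hm_nonneg : ∀ (k : ℕ) (t t' : TrM r W k), 0 ≤ hm S k t t'
  | 0, t, t' => S.h_nonneg t t'
  | k + 1, t, t' => (hm_nonneg k (t 0) (t' 0)).trans (le_hm S t t' 0)

lemma hm_comm : ∀ (k : ℕ) (t t' : TrM r W k), hm S k t t' = hm S k t' t
  | 0, t, t' => S.h_comm t t'
  | k + 1, t, t' => by
    show Finset.univ.sup' _ _ = Finset.univ.sup' _ _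
    refine Finset.sup'_congr _ rfl fun i _ => hm_comm k (t i) (t' i)

lemma hm_tri : ∀ (k : ℕ) (t t' t'' : TrM r W k), hm S k t t'' ≤ hm S k t t' + hm S k t' t''
  | 0, t, t', t'' => S.h_tri t t' t''
  | k + 1, t, t', t'' => hm_le S fun i => (hm_tri k (t i) (t' i) (t'' i)).trans
      (add_le_add (le_hm S t t' i) (le_hm S t' t'' i))

lemma hm_cst (k : ℕ) (a b : W) : hm S k (cstM k a : TrM r W k) (cstM k b) = S.h a b := by
  induction k with
  | zero => rfl
  | succ k ih =>
    apply le_antisymm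
    · exact hm_le S fun _ => ih.le
    · rw [← ih]
      exact le_hm S (fun _ => cstM k a) (fun _ => cstM k b) 0

lemma dist_eq_hm (hd' : ∀ x y, dist x y = S.F (S.h x y)) :
    ∀ (k : ℕ) (t t' : TrM r W k), dist t t' = S.F (hm S k t t')
  | 0, t, t' => hd' t t'
  | k + 1, t, t' => by
    have ih := dist_eq_hm hd' k
    apply le_antisymm
    · refine (dist_tp_le (r := r) (k := k) t t' (S.F_nonneg _)).mpr fun i => ?_
      rw [ih]
      exact S.F_mono _ _ (hm_nonneg S k _ _) (le_hm S t t' i)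
    · obtain ⟨i, hi⟩ := exists_hm S t t'
      have h1 : hm S (k + 1) t t' = hm S k (t i) (t' i) := hi
      rw [h1, ← ih]
      exact dist_le_tp (r := r) (k := k) t t' i

lemma hm_of_mem (P : ℕ → Fin (r + 1) → Prop) {a : W} {ρ : ℝ} :
    ∀ (k : ℕ) (B : Set W) (t : TrM r W k), t ∈ AlP S r P k B → (∀ b ∈ B, S.h a b ≤ ρ) →
      hm S k (cstM k a) t ≤ ρ
  | 0, _, _, ht, hB => hB _ ht
  | k + 1, B, t, ht, hB => by
    obtain ⟨i, a', _, h1, _, t', ht', rfl⟩ := ht
    refine hm_le S fun j => ?_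
    by_cases hj : j = i
    · subst hj
      rw [Function.update_self]
      exact hm_of_mem P k _ t' ht' fun b hb => hB b hb.1
    · rw [Function.update_of_ne hj, hm_cst]
      exact hB _ (h1 j hj).1

/-- A leaf of the tree. -/
def ctr : ∀ k, TrM r W k → W
  | 0, t => t
  | k + 1, t => ctr k (t 0)

lemma ctr_cst (k : ℕ) (a : W) : ctr k (cstM k a : TrM r W k) = a := by
  induction k with
  | zero => rfl
  | succ k ih => exact ih

lemma h_ctr_le : ∀ (k : ℕ) (t t' : TrM r W k), S.h (ctr k t) (ctr k t') ≤ hm S k t t'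
  | 0, t, t' => le_rfl
  | k + 1, t, t' => (h_ctr_le k (t 0) (t' 0)).trans (le_hm S t t' 0)

/-- The squared Euclidean distance on trees, for the label `lam`. -/
def Qf (T : ℝ) (lam : ℕ → Fin (r + 1)) : ∀ k, TrM r W k → TrM r W k → ℝ
  | 0, t, t' => S.h t t'
  | k + 1, t, t' => T ^ (k + 1) * S.h (ctr k (t (lam k))) (ctr k (t' (lam k)))
      + ∑ j, Qf T lam k (t j) (t' j)

/-- Total weight. -/
def Wt (T : ℝ) (r : ℕ) : ℕ → ℝ
  | 0 => 1
  | k + 1 => T ^ (k + 1) + (r + 1) * Wt T r k

lemma Wt_le {T : ℝ} (hT : 4 * ((r : ℝ) + 1) ≤ T) (k : ℕ) : Wt T r k ≤ 4 / 3 * T ^ k := by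
  have hr : (0 : ℝ) ≤ r := Nat.cast_nonneg r
  have hT0 : 0 < T := by linarith
  induction k with
  | zero => simp only [Wt, pow_zero]; norm_num
  | succ k ih =>
    have h1 : (r + 1 : ℝ) * Wt T r k ≤ (r + 1) * (4 / 3 * T ^ k) :=
      mul_le_mul_of_nonneg_left ih (by positivity)
    have h2 : (r + 1 : ℝ) * (4 / 3 * T ^ k) ≤ 1 / 3 * T ^ (k + 1) := by
      rw [pow_succ]
      have : 0 < T ^ k := by positivity
      nlinarith
    simp only [Wt]
    linarith

variable {T : ℝ} {lam : ℕ → Fin (r + 1)}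

lemma Qf_nonneg (hT : 0 ≤ T) : ∀ (k : ℕ) (t t' : TrM r W k), 0 ≤ Qf S T lam k t t'
  | 0, t, t' => S.h_nonneg t t'
  | k + 1, t, t' => add_nonneg (mul_nonneg (pow_nonneg hT _) (S.h_nonneg _ _))
      (Finset.sum_nonneg fun j _ => Qf_nonneg hT k (t j) (t' j))

lemma Qf_comm : ∀ (k : ℕ) (t t' : TrM r W k), Qf S T lam k t t' = Qf S T lam k t' t
  | 0, t, t' => S.h_comm t t'
  | k + 1, t, t' => by
    simp only [Qf]
    rw [S.h_comm]
    congr 1
    exact Finset.sum_congr rfl fun j _ => Qf_comm k (t j) (t' j)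

lemma Qf_cst_self (k : ℕ) (a : W) : Qf S T lam k (cstM k a : TrM r W k) (cstM k a) = 0 := by
  induction k with
  | zero => exact S.h_self a
  | succ k ih =>
    show T ^ (k + 1) * S.h (ctr k (cstM k a : TrM r W k)) (ctr k (cstM k a : TrM r W k))
      + ∑ _j : Fin (r + 1), Qf S T lam k (cstM k a) (cstM k a) = 0
    rw [S.h_self, ih]
    simp

lemma Qf_le (hT : 0 ≤ T) : ∀ (k : ℕ) (t t' : TrM r W k),
    Qf S T lam k t t' ≤ Wt T r k * hm S k t t'
  | 0, t, t' => by
    show S.h t t' ≤ 1 * S.h t t'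
    rw [one_mul]
  | k + 1, t, t' => by
    have h1 : T ^ (k + 1) * S.h (ctr k (t (lam k))) (ctr k (t' (lam k)))
        ≤ T ^ (k + 1) * hm S (k + 1) t t' :=
      mul_le_mul_of_nonneg_left ((h_ctr_le S k _ _).trans (le_hm S t t' (lam k)))
        (pow_nonneg hT _)
    have hW : ∀ k, 0 ≤ Wt T r k := by
      intro k
      induction k with
      | zero => simp [Wt]
      | succ k ih => simp only [Wt]; positivity
    have h2 : ∑ j, Qf S T lam k (t j) (t' j) ≤ ∑ _j : Fin (r + 1), Wt T r k * hm S (k + 1) t t' :=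
      Finset.sum_le_sum fun j _ => (Qf_le hT k (t j) (t' j)).trans
        (mul_le_mul_of_nonneg_left (le_hm S t t' j) (hW k))
    rw [Finset.sum_const, Finset.card_univ, Fintype.card_fin, nsmul_eq_mul] at h2
    push_cast at h2
    show T ^ (k + 1) * S.h (ctr k (t (lam k))) (ctr k (t' (lam k)))
      + ∑ j, Qf S T lam k (t j) (t' j) ≤ (T ^ (k + 1) + (r + 1) * Wt T r k) * hm S (k + 1) t t'
    linarith

section bounds

variable {e q : ℝ} {m : ℕ} {P : ℕ → Fin (r + 1) → Prop}

lemma Qf_le_of_far (hT : 4 * ((r : ℝ) + 1) ≤ T) (he : 0 < e) (hq : 0 < q)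
    (k : ℕ) (hk : k + 1 ≤ m) (t t' : TrM r W (k + 1))
    (hfar : 2 * T * eta e q k ≤ hm S (k + 1) t t') :
    Qf S T lam (k + 1) t t' ≤ 4 / 3 * T * Phi T e q m (hm S (k + 1) t t') := by
  have hr : (0 : ℝ) ≤ r := Nat.cast_nonneg r
  have hT0 : 0 < T := by linarith
  have h1 := Qf_le S (lam := lam) hT0.le (k + 1) t t'
  have h2 : Wt T r (k + 1) * hm S (k + 1) t t' ≤ 4 / 3 * T ^ (k + 1) * hm S (k + 1) t t' :=
    mul_le_mul_of_nonneg_right (Wt_le hT (k + 1)) (hm_nonneg S _ _ _)
  have h3 := Phi_lower (T := T) (by linarith) he hq m k (by omega) hfar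
  have h4 := mul_le_mul_of_nonneg_left h3 (by positivity : 0 ≤ 4 / 3 * T)
  calc Qf S T lam (k + 1) t t' ≤ 4 / 3 * T ^ (k + 1) * hm S (k + 1) t t' := h1.trans h2
    _ = 4 / 3 * T * (T ^ k * hm S (k + 1) t t') := by ring
    _ ≤ _ := h4

lemma Qf_le_const (hT : 4 * ((r : ℝ) + 1) ≤ T) (he : 0 < e) (hq : 0 < q)
    (hsep : ∀ k, ∀ a ∈ S.N (k + 1), ∀ b ∈ S.N (k + 1), a ≠ b → 2 * T * eta e q k ≤ S.h a b)
    (hP : ∀ k i, P k i → i ≠ lam k) :
    ∀ (k : ℕ), k ≤ m → ∀ (B : Set W) (t : TrM r W k) (a : W), t ∈ AlP S r P k B → a ∈ S.N k →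
      Qf S T lam k (cstM k a) t ≤ 4 / 3 * T * Phi T e q m (hm S k (cstM k a) t) := by
  have hr : (0 : ℝ) ≤ r := Nat.cast_nonneg r
  have hT0 : 0 < T := by linarith
  intro k
  induction k with
  | zero =>
    intro _ B t a _ _
    show S.h a t ≤ 4 / 3 * T * Phi T e q m (S.h a t)
    have h1 := Phi_ge (T := T) (e := e) (q := q) m (S.h a t)
    have h2 := S.h_nonneg a t
    nlinarith
  | succ k ih =>
    intro hk B t a ht ha
    obtain ⟨i, a', hPi, h1, h2, t', ht', rfl⟩ := ht
    by_cases hall : ∀ j, j ≠ i → a' j = a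
    · have hc : lam k ≠ i := fun h => hP k i hPi h.symm
      have e1 : Qf S T lam (k + 1) (cstM (k + 1) a)
          (tp (Function.update (fun j => cstM k (a' j)) i t')) = Qf S T lam k (cstM k a) t' := by
        show T ^ (k + 1) * S.h (ctr k (cstM k a : TrM r W k))
            (ctr k ((Function.update (fun j => cstM k (a' j)) i t' :
              Fin (r + 1) → TrM r W k) (lam k)))
          + ∑ j : Fin (r + 1), Qf S T lam k (cstM k a)
            ((Function.update (fun j => cstM k (a' j)) i t' : Fin (r + 1) → TrM r W k) j) = _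
        rw [Function.update_of_ne hc, ctr_cst, ctr_cst, hall _ hc, S.h_self, mul_zero, zero_add]
        rw [Finset.sum_eq_single i]
        · rw [Function.update_self]
        · intro j _ hj
          rw [Function.update_of_ne hj, hall j hj]
          exact Qf_cst_self S k a
        · intro h; exact absurd (Finset.mem_univ i) h
      rw [e1]
      refine (ih (by omega) _ t' a ht' (S.N_anti k ha)).trans ?_
      refine mul_le_mul_of_nonneg_left ?_ (by positivity)
      refine Phi_mono hT0 he hq m (hm_nonneg S _ _ _) ?_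
      have := le_hm S (fun _ => cstM k a) (Function.update (fun j => cstM k (a' j)) i t') i
      rw [Function.update_self] at this
      exact this
    · push Not at hall
      obtain ⟨j, hj, hne⟩ := hall
      refine Qf_le_of_far S hT he hq k hk _ _ ?_
      have h3 := hsep k a ha (a' j) (h1 j hj).2 (Ne.symm hne)
      refine h3.trans ?_
      have := le_hm S (fun _ => cstM k a) (Function.update (fun j => cstM k (a' j)) i t') j
      rw [Function.update_of_ne hj, hm_cst] at this
      exact this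

lemma Qf_le_gen (hT : 4 * ((r : ℝ) + 1) ≤ T) (he : 0 < e) (hq : 0 < q)
    (hsep : ∀ k, ∀ a ∈ S.N (k + 1), ∀ b ∈ S.N (k + 1), a ≠ b → 2 * T * eta e q k ≤ S.h a b)
    (hP : ∀ k i, P k i → i ≠ lam k) :
    ∀ (k : ℕ), k ≤ m → ∀ (B B' : Set W) (t t' : TrM r W k), t ∈ AlP S r P k B →
      t' ∈ AlP S r P k B' → Qf S T lam k t t' ≤ 8 / 3 * T * Phi T e q m (hm S k t t') := by
  have hr : (0 : ℝ) ≤ r := Nat.cast_nonneg r
  have hT0 : 0 < T := by linarith
  have hPhi0 : ∀ x, 0 ≤ x → 0 ≤ Phi T e q m x := fun x hx => hx.trans (Phi_ge m x)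
  intro k
  induction k with
  | zero =>
    intro _ B B' t t' _ _
    show S.h t t' ≤ 8 / 3 * T * Phi T e q m (S.h t t')
    have h1 := Phi_ge (T := T) (e := e) (q := q) m (S.h t t')
    have h2 := S.h_nonneg t t'
    nlinarith
  | succ k ih =>
    intro hk B B' t t' ht ht'
    obtain ⟨i, a, hPi, h1, h2, t₁, ht₁, rfl⟩ := ht
    obtain ⟨i', a', hPi', h1', h2', t₁', ht₁', rfl⟩ := ht'
    set τ : Fin (r + 1) → TrM r W k := Function.update (fun j => cstM k (a j)) i t₁ with hτ
    set τ' : Fin (r + 1) → TrM r W k := Function.update (fun j => cstM k (a' j)) i' t₁' with hτ'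
    have hge := hPhi0 _ (hm_nonneg S (k + 1) (tp τ) (tp τ'))
    by_cases hall : ∀ j, j ≠ i → j ≠ i' → a j = a' j
    · have hc : lam k ≠ i := fun h => hP k i hPi h.symm
      have hc' : lam k ≠ i' := fun h => hP k i' hPi' h.symm
      have e1 : Qf S T lam (k + 1) (tp τ) (tp τ') = ∑ j, Qf S T lam k (τ j) (τ' j) := by
        show T ^ (k + 1) * S.h (ctr k (τ (lam k))) (ctr k (τ' (lam k)))
          + ∑ j, Qf S T lam k (τ j) (τ' j) = _
        rw [hτ, hτ', Function.update_of_ne hc, Function.update_of_ne hc', ctr_cst, ctr_cst,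
          hall _ hc hc', S.h_self, mul_zero, zero_add]
      have hzero : ∀ j, j ≠ i → j ≠ i' → Qf S T lam k (τ j) (τ' j) = 0 := by
        intro j hj hj'
        rw [hτ, hτ', Function.update_of_ne hj, Function.update_of_ne hj', hall j hj hj']
        exact Qf_cst_self S k _
      have hle : ∀ j, Phi T e q m (hm S k (τ j) (τ' j))
          ≤ Phi T e q m (hm S (k + 1) (tp τ) (tp τ')) := fun j =>
        Phi_mono hT0 he hq m (hm_nonneg S _ _ _) (le_hm S τ τ' j)
      rw [e1]
      by_cases hii : i = i'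
      · subst hii
        rw [Finset.sum_eq_single i (fun j _ hj => hzero j hj hj)
          (fun h => absurd (Finset.mem_univ i) h)]
        have e2 : τ i = t₁ := by rw [hτ, Function.update_self]
        have e3 : τ' i = t₁' := by rw [hτ', Function.update_self]
        have h3 := ih (by omega) _ _ t₁ t₁' ht₁ ht₁'
        rw [← e2, ← e3] at h3
        exact h3.trans (mul_le_mul_of_nonneg_left (hle i) (by positivity))
      · have hsum : ∑ j, Qf S T lam k (τ j) (τ' j)
            = Qf S T lam k (τ i) (τ' i) + Qf S T lam k (τ i') (τ' i') := by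
          rw [← Finset.sum_pair (f := fun j => Qf S T lam k (τ j) (τ' j)) hii]
          refine (Finset.sum_subset (Finset.subset_univ _) ?_).symm
          intro j _ hj
          simp only [Finset.mem_insert, Finset.mem_singleton, not_or] at hj
          exact hzero j hj.1 hj.2
        rw [hsum]
        have e2 : τ i = t₁ := by rw [hτ, Function.update_self]
        have e3 : τ' i' = t₁' := by rw [hτ', Function.update_self]
        have e4 : τ i' = cstM k (a i') := by rw [hτ, Function.update_of_ne (Ne.symm hii)]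
        have e5 : τ' i = cstM k (a' i) := by rw [hτ', Function.update_of_ne hii]
        have h3 := Qf_le_const (m := m) S hT he hq hsep hP k (by omega) _ t₁ (a' i) ht₁
          (S.N_anti k (h1' i hii).2)
        have h4 := Qf_le_const (m := m) S hT he hq hsep hP k (by omega) _ t₁' (a i') ht₁'
          (S.N_anti k (h1 i' (Ne.symm hii)).2)
        rw [Qf_comm, hm_comm, ← e2, ← e5] at h3
        rw [← e3, ← e4] at h4
        have h5 := mul_le_mul_of_nonneg_left (hle i) (by positivity : 0 ≤ 4 / 3 * T)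
        have h6 := mul_le_mul_of_nonneg_left (hle i') (by positivity : 0 ≤ 4 / 3 * T)
        linarith
    · push Not at hall
      obtain ⟨j, hj, hj', hne⟩ := hall
      have h3 := hsep k (a j) (h1 j hj).2 (a' j) (h1' j hj').2 hne
      have h4 : 2 * T * eta e q k ≤ hm S (k + 1) (tp τ) (tp τ') := by
        refine h3.trans ?_
        have := le_hm S τ τ' j
        rw [hτ, hτ', Function.update_of_ne hj, Function.update_of_ne hj', hm_cst] at this
        exact this
      refine (Qf_le_of_far S hT he hq k hk _ _ h4).trans ?_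
      nlinarith

lemma Phi_le_Qf (hT : 4 * ((r : ℝ) + 1) ≤ T) (hTq : T ≤ q) (he : 0 < e)
    (hη : S.η = eta e q)
    (hP : ∀ k i, P k i → i ≠ lam k) (hPne : ∀ k, ∃ i, P k i) :
    ∀ (k : ℕ), k ≤ m → ∀ (B B' : Set W) (t t' : TrM r W k), t ∈ AlP S r P k B →
      t' ∈ AlP S r P k B' → (k = m ∨ hm S k t t' ≤ 4 * eta e q (k + 1)) →
      Phi T e q m (hm S k t t') ≤ 4 * Qf S T lam k t t' := by
  have hr : (0 : ℝ) ≤ r := Nat.cast_nonneg r
  have hT0 : 0 < T := by linarith
  have hT1 : 1 ≤ T := by linarith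
  have hq : 0 < q := by linarith
  -- the generic upper bound for the transform
  have hgen : ∀ k, k ≤ m → ∀ x, 0 ≤ x → (k = m ∨ x ≤ 4 * eta e q (k + 1)) →
      Phi T e q m x ≤ 2 * (T ^ k * x) := by
    intro k hk x hx hor
    have h0 : 0 ≤ T ^ k * x := by positivity
    rcases hk.lt_or_eq with h1 | h1
    · rcases hor with h2 | h2
      · omega
      · refine (Phi_le_mul hT1 hTq he m k h1 hx).trans (max_le (by linarith) ?_)
        have hE := eta_succ_pos he hq k
        rw [div_le_iff₀ (by positivity)]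
        nlinarith
    · rw [h1] at h0 ⊢
      have := Phi_le_pow (T := T) (e := e) (q := q) hT1 m hx
      linarith
  intro k
  induction k with
  | zero =>
    intro hk B B' t t' _ _ hor
    show Phi T e q m (S.h t t') ≤ 4 * S.h t t'
    have h1 := hgen 0 hk (S.h t t') (S.h_nonneg _ _) hor
    have h2 := S.h_nonneg t t'
    simp only [pow_zero, one_mul] at h1
    linarith
  | succ k ih =>
    intro hk B B' t t' ht ht' hor
    have h0 := hgen (k + 1) hk _ (hm_nonneg S (k + 1) t t') hor
    obtain ⟨i, a, hPi, h1, h2, t₁, ht₁, rfl⟩ := ht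
    obtain ⟨i', a', hPi', h1', h2', t₁', ht₁', rfl⟩ := ht'
    have hc : lam k ≠ i := fun h => hP k i hPi h.symm
    have hc' : lam k ≠ i' := fun h => hP k i' hPi' h.symm
    set τ : Fin (r + 1) → TrM r W k := Function.update (fun j => cstM k (a j)) i t₁ with hτ
    set τ' : Fin (r + 1) → TrM r W k := Function.update (fun j => cstM k (a' j)) i' t₁' with hτ'
    set H := hm S (k + 1) (tp τ) (tp τ') with hH
    have hH0 : 0 ≤ H := hm_nonneg S _ _ _
    have hηpos := eta_succ_pos he hq k
    -- all leaves are near the centre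
    have hnear : hm S (k + 1) (cstM (k + 1) (a (lam k))) (tp τ) ≤ eta e q (k + 1) := by
      refine hm_le S fun j => ?_
      by_cases hj : j = i
      · subst hj
        rw [hτ, Function.update_self]
        refine hm_of_mem S P k _ t₁ ht₁ fun b hb => ?_
        have := hb.2 (lam k) hc
        rw [hη] at this
        exact this
      · rw [hτ, Function.update_of_ne hj, hm_cst, ← hη]
        exact h2 _ _ hc hj
    have hnear' : hm S (k + 1) (cstM (k + 1) (a' (lam k))) (tp τ') ≤ eta e q (k + 1) := by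
      refine hm_le S fun j => ?_
      by_cases hj : j = i'
      · subst hj
        rw [hτ', Function.update_self]
        refine hm_of_mem S P k _ t₁' ht₁' fun b hb => ?_
        have := hb.2 (lam k) hc'
        rw [hη] at this
        exact this
      · rw [hτ', Function.update_of_ne hj, hm_cst, ← hη]
        exact h2' _ _ hc' hj
    have hQ1 : T ^ (k + 1) * S.h (a (lam k)) (a' (lam k)) ≤ Qf S T lam (k + 1) (tp τ) (tp τ') := by
      show _ ≤ T ^ (k + 1) * S.h (ctr k (τ (lam k))) (ctr k (τ' (lam k)))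
        + ∑ j, Qf S T lam k (τ j) (τ' j)
      have e1 : ctr k (τ (lam k)) = a (lam k) := by
        rw [hτ, Function.update_of_ne hc, ctr_cst]
      have e2 : ctr k (τ' (lam k)) = a' (lam k) := by
        rw [hτ', Function.update_of_ne hc', ctr_cst]
      rw [e1, e2]
      have : 0 ≤ ∑ j, Qf S T lam k (τ j) (τ' j) :=
        Finset.sum_nonneg fun j _ => Qf_nonneg S hT0.le k _ _
      linarith
    have hQ2 : ∀ j, Qf S T lam k (τ j) (τ' j) ≤ Qf S T lam (k + 1) (tp τ) (tp τ') := by
      intro j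
      show _ ≤ T ^ (k + 1) * S.h (ctr k (τ (lam k))) (ctr k (τ' (lam k)))
        + ∑ j, Qf S T lam k (τ j) (τ' j)
      have h3 := Finset.single_le_sum (f := fun j => Qf S T lam k (τ j) (τ' j))
        (fun j _ => Qf_nonneg S hT0.le k _ _) (Finset.mem_univ j)
      have h4 : 0 ≤ T ^ (k + 1) * S.h (ctr k (τ (lam k))) (ctr k (τ' (lam k))) :=
        mul_nonneg (by positivity) (S.h_nonneg _ _)
      linarith
    by_cases hbig : 4 * eta e q (k + 1) ≤ H
    · have h3 : H ≤ S.h (a (lam k)) (a' (lam k)) + 2 * eta e q (k + 1) := by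
        have t1 := hm_tri S (k + 1) (tp τ) (cstM (k + 1) (a (lam k))) (tp τ')
        have t2 := hm_tri S (k + 1) (cstM (k + 1) (a (lam k))) (cstM (k + 1) (a' (lam k))) (tp τ')
        rw [hm_comm S (k + 1) (tp τ) (cstM (k + 1) (a (lam k)))] at t1
        rw [hm_cst] at t2
        linarith
      have h4 : H / 2 ≤ S.h (a (lam k)) (a' (lam k)) := by linarith
      have h5 := mul_le_mul_of_nonneg_left h4 (by positivity : 0 ≤ T ^ (k + 1))
      linarith
    · push Not at hbig
      obtain ⟨j, hj⟩ := exists_hm S τ τ'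
      rw [← hH] at hj
      have hτmem : ∀ j, ∃ B, τ j ∈ AlP S r P k B := by
        intro j
        by_cases hji : j = i
        · subst hji
          rw [hτ, Function.update_self]
          exact ⟨_, ht₁⟩
        · rw [hτ, Function.update_of_ne hji]
          exact ⟨Set.univ, cstM_mem S P hPne k _ _ (Set.mem_univ _) (S.N_anti k (h1 j hji).2)⟩
      have hτmem' : ∀ j, ∃ B, τ' j ∈ AlP S r P k B := by
        intro j
        by_cases hji : j = i'
        · subst hji
          rw [hτ', Function.update_self]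
          exact ⟨_, ht₁'⟩
        · rw [hτ', Function.update_of_ne hji]
          exact ⟨Set.univ, cstM_mem S P hPne k _ _ (Set.mem_univ _) (S.N_anti k (h1' j hji).2)⟩
      obtain ⟨B₁, hB₁⟩ := hτmem j
      obtain ⟨B₂, hB₂⟩ := hτmem' j
      have h3 := ih (by omega) B₁ B₂ (τ j) (τ' j) hB₁ hB₂ (Or.inr (by rw [← hj]; exact hbig.le))
      rw [← hj] at h3
      exact h3.trans (mul_le_mul_of_nonneg_left (hQ2 j) (by norm_num))

end bounds

/-- The quadratic form is a squared Euclidean distance. -/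
theorem Qf_euclid (hT0 : 0 ≤ T) (G : Type u) [Fintype G] [DecidableEq G] [MetricSpace (Wd G)]
    (S : Sys (Wd G)) (hSh : S.h = hd (G := G) (Z := Bool)) :
    ∀ k : ℕ, ∃ (ι : Type u) (_ : Fintype ι) (g : TrM r (Wd G) k → ι → ℝ),
      ∀ t t', Qf S T lam k t t' = ∑ i, (g t i - g t' i) ^ 2
  | 0 => ⟨G, inferInstance, fun w i => if (w : G → Bool) i = true then (1 : ℝ) else 0,
      fun t t' => by
        show S.h t t' = _
        rw [hSh]
        exact hd_eq_sum (G := G) t t'⟩
  | k + 1 => by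
    obtain ⟨ι, hι, g, hg⟩ := Qf_euclid hT0 G S hSh k
    refine ⟨G ⊕ (Fin (r + 1) × ι), inferInstance, fun t => Sum.elim
      (fun i => √(T ^ (k + 1)) * (if (ctr k (t (lam k)) : G → Bool) i = true then (1 : ℝ) else 0))
      (fun p => g (t p.1) p.2), fun t t' => ?_⟩
    rw [Fintype.sum_sum_type]
    simp only [Sum.elim_inl, Sum.elim_inr]
    show T ^ (k + 1) * S.h (ctr k (t (lam k))) (ctr k (t' (lam k)))
      + ∑ j, Qf S T lam k (t j) (t' j) = _
    congr 1
    · rw [hSh, hd_eq_sum, Finset.mul_sum]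
      refine Finset.sum_congr rfl fun i _ => ?_
      rw [← mul_sub, mul_pow, Real.sq_sqrt (by positivity)]
      rfl
    · rw [Fintype.sum_prod_type]
      refine Finset.sum_congr rfl fun j _ => ?_
      rw [hg]

end

end H799M
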