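import Pool.Agent.Helper799.UnionM.Euclid
import Pool.Agent.Helper799.UnionM.Cover

/-!
The lower bound for the distortion of the union, `(r+1)`-ary version.
-/

namespace H799M

open scoped BigOperators
open Finset H799L

noncomputable section

universe u v

/-- Index types. -/
def GtM (r n : ℕ) : ℕ → Type u
  | 0 => PUnit
  | k + 1 => (GtM r n k × Fin r) × Fin n

instance GtM.fintype (r n : ℕ) : ∀ k, Fintype (GtM.{u} r n k)
  | 0 => inferInstanceAs (Fintype PUnit)
  | k + 1 =>
    haveI := GtM.fintype r n k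
    inferInstanceAs (Fintype ((GtM r n k × Fin r) × Fin n))

instance GtM.deceq (r n : ℕ) : ∀ k, DecidableEq (GtM.{u} r n k)
  | 0 => inferInstanceAs (DecidableEq PUnit)
  | k + 1 =>
    haveI := GtM.deceq r n k
    inferInstanceAs (DecidableEq ((GtM r n k × Fin r) × Fin n))

lemma card_GtM (r n k : ℕ) : Fintype.card (GtM.{u} r n k) = (r * n) ^ k := by
  induction k with
  | zero => rfl
  | succ k ih =>
    show Fintype.card ((GtM.{u} r n k × Fin r) × Fin n) = _
    rw [Fintype.card_prod, Fintype.card_prod, ih, Fintype.card_fin, Fintype.card_fin, pow_succ,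
      mul_assoc]

/-- The recursive bounds. -/
def betaM (T e q : ℝ) (m r n : ℕ) : ℕ → ℝ
  | 0 => Fun T e q m (2 ^ m)
  | k + 1 => √(18 * n * r ^ 3) * (betaM T e q m r n k + 2 * Fun T e q m (2 * T * eta e q k))
      + 2 * Fun T e q m (eta e q (k + 1))

lemma betaM_nonneg (T e q : ℝ) (m r n k : ℕ) : 0 ≤ betaM T e q m r n k := by
  induction k with
  | zero => exact Fun_nonneg _ _
  | succ k ih =>
    have := Fun_nonneg (T := T) (e := e) (q := q) m (2 * T * eta e q k)
    have := Fun_nonneg (T := T) (e := e) (q := q) m (eta e q (k + 1))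
    unfold betaM
    positivity

theorem StM_all {W : Type u} [MetricSpace W] (S : Sys W) (E : Type v) [NormedAddCommGroup E]
    [InnerProductSpace ℝ E] {T : ℝ} {r p m : ℕ} {e q : ℝ} (hr : 1 ≤ r) (hp : 1 ≤ p)
    (hT : 1 ≤ T) (hqdef : q = r * p) (hedef : e = 2 ^ m * r) (hq : 16 * T ≤ q)
    (hF : S.F = Fun T e q m) (hη : S.η = eta e q)
    (hδ : S.δ = fun k => 2 * T * eta e q k) (k : ℕ) (hk : k ≤ m) :
    StM S E r k (GtM.{u} r (2 * p) k) (2 ^ (m - k)) (betaM T e q m r (2 * p) k) := by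
  have hr0 : (0 : ℝ) < r := by exact_mod_cast hr
  have hp0 : (0 : ℝ) < p := by exact_mod_cast hp
  have hq0 : (0 : ℝ) < q := by rw [hqdef]; positivity
  have he0 : 0 < e := by rw [hedef]; positivity
  have : NeZero (2 * p) := ⟨by omega⟩
  induction k with
  | zero =>
    have := StM_zero (r := r) S E (GtM.{u} r (2 * p) 0) rfl (c := 2 ^ (m - 0)) (by positivity)
    rw [hF] at this
    exact this
  | succ k ih =>
    have ih' := ih (by omega)
    have hc : (2 : ℝ) ^ (m - k) = 2 * 2 ^ (m - (k + 1)) := by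
      have : m - k = (m - (k + 1)) + 1 := by omega
      rw [this, pow_succ]; ring
    rw [hc] at ih'
    have hcond : (2 : ℝ) ^ (m - (k + 1)) * Fintype.card (GtM.{u} r (2 * p) k × Fin r)
        + 4 * S.δ k ≤ S.η (k + 1) := by
      rw [Fintype.card_prod, card_GtM, Fintype.card_fin, hη, hδ]
      push_cast
      have h1 : (2 : ℝ) ^ (m - (k + 1)) * ((r * (2 * p)) ^ k * r) = eta e q (k + 1) / 2 := by
        have h2 : (2 : ℝ) ^ m = 2 ^ (m - (k + 1)) * 2 ^ k * 2 := by
          rw [← pow_add, ← pow_succ]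
          congr 1
          omega
        simp only [eta]
        rw [hedef, h2, hqdef]
        have h3 : ((r : ℝ) * (2 * p)) ^ k = 2 ^ k * (r * p) ^ k := by
          rw [← mul_pow]; congr 1; ring
        rw [h3]
        ring
      rw [h1]
      have h2 := mul_eta_le (e := e) (q := q) he0 hq0 k
      have h3 := eta_nonneg (e := e) (q := q) he0 hq0 k
      nlinarith
    have h := stepM S (r := r) (E := E) (k := k) (n := 2 * p) (G := GtM.{u} r (2 * p) k)
      (c := 2 ^ (m - (k + 1))) (β := betaM T e q m r (2 * p) k) (by positivity)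
      (betaM_nonneg _ _ _ _ _ _ _) hcond ih'
    rw [hF, hη, hδ] at h
    exact h

lemma betaM_le {T L e q : ℝ} {r p m : ℕ} (hr : 1 ≤ r) (hp : 1 ≤ p) (hT : 4 ≤ T) (hL : 1 ≤ L)
    (hqdef : q = r * p) (hedef : e = 2 ^ m * r) (hq : 16 * T ≤ q)
    (hq2 : (12 * r * √(2 * T) + 2) * L ^ m ≤ √q * (√T / L - 6 * r)) (k : ℕ) (hk : k ≤ m) :
    betaM T e q m r (2 * p) k * L ^ k ≤ √(T ^ k * eta e q (k + 1)) := by
  have hr0 : (0 : ℝ) < r := by exact_mod_cast hr
  have hr1 : (1 : ℝ) ≤ r := by exact_mod_cast hr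
  have hp0 : (0 : ℝ) < p := by exact_mod_cast hp
  have hT0 : 0 < T := by linarith
  have hq0 : (0 : ℝ) < q := by linarith
  have he : (0 : ℝ) < e := by rw [hedef]; positivity
  have he2 : (2 : ℝ) ^ m ≤ e := by
    rw [hedef]
    have : (0 : ℝ) < 2 ^ m := by positivity
    nlinarith
  have hL0 : 0 < L := by linarith
  induction k with
  | zero =>
    simp only [pow_zero, mul_one, one_mul, betaM]
    refine Real.sqrt_le_sqrt ?_
    have h := Phi_le_small (T := T) (e := e) (q := q) (by linarith) (by linarith) he m 0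
      (Nat.zero_le _) (h := 2 ^ m) (by positivity) (Or.inl (by simp [eta]; linarith))
    refine h.trans ?_
    simp [eta]
    exact he2
  | succ k ih =>
    have ih := ih (by omega)
    set φ := √(T ^ k * eta e q (k + 1)) with hφ
    have hφ0 : 0 ≤ φ := Real.sqrt_nonneg _
    have hη := eta_succ_pos (e := e) (q := q) he hq0 k
    have hη0 := eta_nonneg (e := e) (q := q) he hq0 k
    have hm := mul_eta_le (e := e) (q := q) he hq0 k
    have hTη : T * eta e q k ≤ eta e q (k + 1) := by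
      refine le_trans ?_ hm
      exact mul_le_mul_of_nonneg_right (by linarith) hη0
    have hF1 : Fun T e q m (2 * T * eta e q k) ≤ √(2 * T / q) * φ := by
      rw [hφ, ← Real.sqrt_mul (by positivity)]
      refine Real.sqrt_le_sqrt ?_
      have h := Phi_le_small (T := T) (e := e) (q := q) (by linarith) (by linarith) he m k
        (by omega) (h := 2 * T * eta e q k) (by positivity) (Or.inl (by linarith))
      refine h.trans ?_
      have h2 : eta e q k ≤ eta e q (k + 1) / q := by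
        rw [le_div_iff₀ hq0]; linarith
      calc T ^ k * (2 * T * eta e q k) = (2 * T * T ^ k) * eta e q k := by ring
        _ ≤ (2 * T * T ^ k) * (eta e q (k + 1) / q) :=
            mul_le_mul_of_nonneg_left h2 (by positivity)
        _ = 2 * T / q * (T ^ k * eta e q (k + 1)) := by ring
    have hF2 : Fun T e q m (eta e q (k + 1)) ≤ φ := by
      refine Real.sqrt_le_sqrt ?_
      exact Phi_le_small (T := T) (e := e) (q := q) (by linarith) (by linarith) he m k
        (by omega) hη.le (Or.inl (by linarith))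
    have hφ' : √(T ^ (k + 1) * eta e q (k + 1 + 1)) = √T * √q * φ := by
      rw [hφ, ← Real.sqrt_mul hT0.le, ← Real.sqrt_mul (by positivity), eta_succ_succ]
      congr 1
      ring
    rw [hφ']
    have h2q : √(18 * ((2 * p : ℕ) : ℝ) * r ^ 3) = 6 * r * √q := by
      push_cast
      have : (18 : ℝ) * (2 * p) * r ^ 3 = (6 * r) ^ 2 * q := by rw [hqdef]; ring
      rw [this, Real.sqrt_mul (by positivity), Real.sqrt_sq (by positivity)]
    have hqT : √q * √(2 * T / q) = √(2 * T) := by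
      rw [← Real.sqrt_mul hq0.le]
      congr 1
      field_simp
    have hLk : L ^ k ≤ L ^ m := pow_le_pow_right₀ hL (by omega)
    have hsq : 0 ≤ √(2 * T) := Real.sqrt_nonneg _
    have hsqq : 0 ≤ √q := Real.sqrt_nonneg _
    have hβ : betaM T e q m r (2 * p) (k + 1)
        ≤ 6 * r * √q * (betaM T e q m r (2 * p) k + 2 * (√(2 * T / q) * φ)) + 2 * φ := by
      simp only [betaM]
      rw [h2q]
      have h1 : 6 * r * √q * (betaM T e q m r (2 * p) k + 2 * Fun T e q m (2 * T * eta e q k))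
          ≤ 6 * r * √q * (betaM T e q m r (2 * p) k + 2 * (√(2 * T / q) * φ)) := by
        refine mul_le_mul_of_nonneg_left ?_ (by positivity)
        linarith
      linarith
    calc betaM T e q m r (2 * p) (k + 1) * L ^ (k + 1)
        ≤ (6 * r * √q * (betaM T e q m r (2 * p) k + 2 * (√(2 * T / q) * φ)) + 2 * φ)
            * L ^ (k + 1) :=
          mul_le_mul_of_nonneg_right hβ (by positivity)
      _ = 6 * r * √q * L * (betaM T e q m r (2 * p) k * L ^ k)
          + (L * φ) * ((12 * r * (√q * √(2 * T / q)) + 2) * L ^ k) := by ring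
      _ = 6 * r * √q * L * (betaM T e q m r (2 * p) k * L ^ k)
          + (L * φ) * ((12 * r * √(2 * T) + 2) * L ^ k) := by rw [hqT]
      _ ≤ 6 * r * √q * L * φ + (L * φ) * (√q * (√T / L - 6 * r)) := by
          refine add_le_add (mul_le_mul_of_nonneg_left ih (by positivity))
            (mul_le_mul_of_nonneg_left ?_ (by positivity))
          refine le_trans ?_ hq2
          exact mul_le_mul_of_nonneg_left hLk (by positivity)
      _ = √T * √q * φ := by
          field_simp
          ring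

/-- The lower bound for one system. -/
theorem lower_boundM {T L e q : ℝ} {r p m : ℕ} (hr : 1 ≤ r) (hp : 1 ≤ p) (hT : 4 ≤ T)
    (hL : 1 ≤ L) (hqdef : q = r * p) (hedef : e = 2 ^ m * r) (hq : 128 * r * T ≤ q)
    (hq2 : (12 * r * √(2 * T) + 2) * L ^ m ≤ √q * (√T / L - 6 * r)) (hT0 : 0 < T) (hq0 : 0 < q)
    (he : 0 < e) (E : Type v) [NormedAddCommGroup E] [InnerProductSpace ℝ E]
    (G : Type u) [Fintype G] [DecidableEq G] (hcard : Fintype.card G = (r * (2 * p)) ^ m) :
    letI : MetricSpace (Wd G) := mW hT0 he hq0 m G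
    ∀ (S : Sys (Wd G)), S.h = hd (G := G) (Z := Bool) →
      (S.δ = fun k => 2 * T * eta e q k) →
      StM S E r m G 1 (betaM T e q m r (2 * p) m) →
      ∀ (f : TrM r (Wd G) m → E) (K : ℝ), 0 ≤ K →
        (∀ t ∈ AlM S r m Set.univ, ∀ t' ∈ AlM S r m Set.univ, ‖f t - f t'‖ ≤ dist t t') →
        (∀ t ∈ AlM S r m Set.univ, ∀ t' ∈ AlM S r m Set.univ, dist t t' ≤ K * ‖f t - f t'‖) →
        L ^ m / (4 * √r) ≤ K := by
  let : MetricSpace (Wd G) := mW hT0 he hq0 m G
  intro S hSh hSδ hSt f K hK hup hlo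
  set β := betaM T e q m r (2 * p) m with hβ
  have hβ0 : 0 ≤ β := betaM_nonneg _ _ _ _ _ _ _
  have h1 := hSt Bool (fun z => z) (fun x y => by rw [hSh, one_mul]) Set.univ
    (fun _ _ _ => Set.mem_univ _) f hup
  have hr0 : (0 : ℝ) < r := by exact_mod_cast hr
  have hr1 : (1 : ℝ) ≤ r := by exact_mod_cast hr
  have hq16 : 128 * T ≤ q := by nlinarith
  set ρ := √(r : ℝ) with hρ
  have hρ0 : 0 < ρ := Real.sqrt_pos.mpr hr0
  have hρ2 : ρ ^ 2 = r := Real.sq_sqrt hr0.le
  set φ := √(T ^ m * eta e q (m + 1)) with hφ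
  have hη := eta_succ_pos (e := e) (q := q) he hq0 m
  have hη0 := eta_nonneg (e := e) (q := q) he hq0 m
  have hm := mul_eta_le (e := e) (q := q) he hq0 m
  have hφ0 : 0 < φ := Real.sqrt_pos.mpr (by positivity)
  have hφsq : φ ^ 2 = T ^ m * eta e q (m + 1) := Real.sq_sqrt (by positivity)
  have hβφ : β * L ^ m ≤ φ := betaM_le hr hp hT hL hqdef hedef (by linarith) hq2 m le_rfl
  have hLm : 0 < L ^ m := by positivity
  have hTm : 0 < T ^ m := by positivity
  have hkey : 128 * r * (T * eta e q m) ≤ eta e q (m + 1) := by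
    refine le_trans ?_ hm
    nlinarith
  -- the rounding error
  set B := Fun T e q m (4 * (2 * T * eta e q m)) with hB
  have hB0 : 0 ≤ B := Fun_nonneg _ _
  have hBle : B ≤ φ / (4 * ρ) := by
    have h2 : B ^ 2 ≤ (φ / (4 * ρ)) ^ 2 := by
      rw [hB, Fun_sq m (by positivity), div_pow, mul_pow, hφsq, hρ2,
        le_div_iff₀ (by positivity)]
      have h3 := Phi_le_pow (T := T) (e := e) (q := q) (by linarith) m
        (h := 4 * (2 * T * eta e q m)) (by positivity)
      calc Phi T e q m (4 * (2 * T * eta e q m)) * (4 ^ 2 * r)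
          ≤ (T ^ m * (4 * (2 * T * eta e q m))) * (4 ^ 2 * r) :=
            mul_le_mul_of_nonneg_right h3 (by positivity)
        _ = T ^ m * (128 * r * (T * eta e q m)) := by ring
        _ ≤ T ^ m * eta e q (m + 1) := mul_le_mul_of_nonneg_left hkey hTm.le
    exact (abs_le_of_sq_le_sq' h2 (by positivity)).2
  -- the upper bound for the average
  have h2 : (av fun z : G → Bool => av fun z' : G → Bool =>
      Fun T e q m (hd z z') ^ 2) ≤ (K * β + B) ^ 2 := by
    rw [← av_prod (fun q' : (G → Bool) × (G → Bool) => Fun T e q m (hd q'.1 q'.2) ^ 2)]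
    have h3 : (av fun q' : (G → Bool) × (G → Bool) =>
        (K * ‖f (cstM m (S.R m q'.1)) - f (cstM m (S.R m q'.2))‖) ^ 2) ≤ (K * β) ^ 2 := by
      simp only [mul_pow]
      rw [av_mul]
      refine mul_le_mul_of_nonneg_left ?_ (sq_nonneg K)
      rw [av_prod (fun q' : (G → Bool) × (G → Bool) =>
        ‖f (cstM m (S.R m q'.1)) - f (cstM m (S.R m q'.2))‖ ^ 2)]
      exact h1
    refine av_sq_le (by positivity) hB0 (fun q' => Fun_nonneg _ _) (fun q' => ?_) h3
    have hmem : ∀ z : G → Bool, cstM m (S.R m z) ∈ AlM S r m Set.univ := fun z =>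
      cst_mem S m _ _ (Set.mem_univ _) (S.R_mem m z)
    have e1 := hlo _ (hmem q'.1) _ (hmem q'.2)
    rw [dist_cstM] at e1
    have e2 : Fun T e q m (hd q'.1 q'.2)
        ≤ dist (S.R m q'.1) (S.R m q'.2) + B := by
      have c1 := S.R_close m m q'.1 (by omega)
      have c2 := S.R_close m m q'.2 (by omega)
      rw [hSh, hSδ] at c1 c2
      have c3 := hd_tri (G := G) (Z := Bool) q'.1 (S.R m q'.1) q'.2
      have c4 := hd_tri (G := G) (Z := Bool) (S.R m q'.1) (S.R m q'.2) q'.2
      rw [hd_comm (G := G) (Z := Bool) (S.R m q'.2) q'.2] at c4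
      have c5 : hd (G := G) (Z := Bool) q'.1 q'.2
          ≤ hd (G := G) (Z := Bool) (S.R m q'.1) (S.R m q'.2)
            + 4 * (2 * T * eta e q m) := by linarith
      refine (Fun_mono hT0 he hq0 m _ _ (hd_nonneg _ _) c5).trans ?_
      exact Fun_add hT0 he hq0 m (hd_nonneg _ _) (by positivity)
    linarith
  -- the lower bound for the average
  have h3 : (φ / (2 * ρ)) ^ 2 ≤ av fun z : G → Bool => av fun z' : G → Bool =>
      Fun T e q m (hd z z') ^ 2 := by
    refine le_av fun z => ?_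
    have e1 : ∀ z' : G → Bool, T ^ m * hd z z' + (-(T ^ m * (2 * T * eta e q m)))
        ≤ Fun T e q m (hd z z') ^ 2 := by
      intro z'
      rw [Fun_sq m (hd_nonneg _ _)]
      by_cases hc : 2 * T * eta e q m ≤ hd z z'
      · have := Phi_lower (T := T) (e := e) (q := q) (by linarith) he hq0 m m le_rfl hc
        have h4 : 0 ≤ T ^ m * (2 * T * eta e q m) := by positivity
        linarith
      · push Not at hc
        have h4 := (hd_nonneg z z').trans (Phi_ge (T := T) (e := e) (q := q) m (hd z z'))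
        have h5 := mul_le_mul_of_nonneg_left hc.le (show 0 ≤ T ^ m by positivity)
        linarith
    refine le_trans ?_ (av_mono e1)
    rw [av_add, av_mul, av_const, av_hd, hcard, div_pow, mul_pow, hφsq, hρ2]
    have h4 : ((((r * (2 * p)) ^ m : ℕ)) : ℝ) = eta e q (m + 1) / r := by
      push_cast
      simp only [eta]
      rw [hedef, hqdef]
      have h3 : ((r : ℝ) * (2 * p)) ^ m = 2 ^ m * (r * p) ^ m := by
        rw [← mul_pow]; congr 1; ring
      rw [h3]
      field_simp
    rw [h4]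
    have h6 : T ^ m * eta e q (m + 1) / (2 ^ 2 * r)
        = T ^ m * (eta e q (m + 1) / r / 2) - T ^ m * (eta e q (m + 1) / (4 * r)) := by
      field_simp
      ring
    have h7 : 2 * T * eta e q m ≤ eta e q (m + 1) / (4 * r) := by
      rw [le_div_iff₀ (by positivity)]
      nlinarith
    have h8 := mul_le_mul_of_nonneg_left h7 hTm.le
    rw [h6]
    linarith
  have h4 : (φ / (2 * ρ)) ^ 2 ≤ (K * β + B) ^ 2 := h3.trans h2
  have h5 : φ / (2 * ρ) ≤ K * β + B := (abs_le_of_sq_le_sq' h4 (by positivity)).2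
  have h6 : φ / (4 * ρ) ≤ K * β := by
    have : φ / (2 * ρ) = φ / (4 * ρ) + φ / (4 * ρ) := by
      field_simp
      ring
    linarith
  have h7 : φ / (4 * ρ) * L ^ m ≤ K * φ := by
    calc φ / (4 * ρ) * L ^ m ≤ K * β * L ^ m := mul_le_mul_of_nonneg_right h6 hLm.le
      _ = K * (β * L ^ m) := by ring
      _ ≤ K * φ := mul_le_mul_of_nonneg_left hβφ hK
  have h8 : L ^ m / (4 * ρ) * φ ≤ K * φ := by
    have : L ^ m / (4 * ρ) * φ = φ / (4 * ρ) * L ^ m := by ring
    rw [this]
    exact h7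
  exact le_of_mul_le_mul_right h8 hφ0

lemma AlP_mono {W : Type u} [MetricSpace W] (S : Sys W) {r : ℕ}
    {P P' : ℕ → Fin (r + 1) → Prop} : ∀ (k : ℕ) (_ : ∀ l < k, ∀ i, P l i → P' l i)
    (B : Set W), AlP S r P k B ⊆ AlP S r P' k B
  | 0, _, _, _, ht => ht
  | k + 1, hPP, B, t, ht => by
    obtain ⟨i, a, hPi, h1, h2, t', ht', rfl⟩ := ht
    exact ⟨i, a, hPP k (by omega) i hPi, h1, h2, t',
      AlP_mono S k (fun l hl => hPP l (by omega)) _ ht', rfl⟩

lemma AlP_state {W : Type u} [MetricSpace W] (S : Sys W) {r : ℕ} :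
    ∀ (k : ℕ) (B : Set W) (t : TrM r W k), t ∈ AlM S r k B →
      ∃ st : ℕ → Fin (r + 1), t ∈ AlP S r (fun l i => i = st l) k B
  | 0, _, _, ht => ⟨fun _ => 0, ht⟩
  | k + 1, B, t, ht => by
    obtain ⟨i, a, _, h1, h2, t', ht', rfl⟩ := ht
    obtain ⟨st, hst⟩ := AlP_state S k _ t' ht'
    refine ⟨Function.update st k i, i, a, (Function.update_self k i st).symm, h1, h2, t',
      ?_, rfl⟩
    refine AlP_mono S k (fun l hl j hj => ?_) _ hst
    have h3 : Function.update st k i l = st l := Function.update_of_ne (by omega) _ _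
    exact hj.trans h3.symm

lemma exists_p {T L : ℝ} {r : ℕ} (hr : 1 ≤ r) (hL : 1 ≤ L) (hLT : L * (6 * r) < √T) (m : ℕ) :
    ∃ p : ℕ, 1 ≤ p ∧ 128 * r * T ≤ (r : ℝ) * p ∧
      (12 * r * √(2 * T) + 2) * L ^ m ≤ √((r : ℝ) * p) * (√T / L - 6 * r) := by
  have hL0 : 0 < L := by linarith
  have hr1 : (1 : ℝ) ≤ r := by exact_mod_cast hr
  have hg : 0 < √T / L - 6 * r := by
    rw [sub_pos, lt_div_iff₀ hL0]; linarith
  set C := (12 * r * √(2 * T) + 2) * L ^ m / (√T / L - 6 * r) with hC
  obtain ⟨p, hp⟩ := exists_nat_ge (max (max 1 (128 * r * T)) (C ^ 2))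
  have hp1 : (1 : ℝ) ≤ p := ((le_max_left _ _).trans (le_max_left _ _)).trans hp
  have hpr : (p : ℝ) ≤ r * p := by nlinarith
  refine ⟨p, by exact_mod_cast hp1, ?_, ?_⟩
  · exact (((le_max_right _ _).trans (le_max_left _ _)).trans hp).trans hpr
  · have h1 : C ≤ √((r : ℝ) * p) :=
      Real.le_sqrt_of_sq_le (((le_max_right _ _).trans hp).trans hpr)
    rw [hC, div_le_iff₀ hg] at h1
    exact h1

/-- The configuration: a metric space with `NN r m` subsets. -/
theorem configM {T L : ℝ} {r : ℕ} (hr : 1 ≤ r) (hT : 4 * ((r : ℝ) + 1) ≤ T) (hL : 1 ≤ L)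
    (hLT : L * (6 * r) < √T) (m : ℕ) :
    ∃ (X : Type u) (_ : MetricSpace X) (A : Fin (NN r m) → Set X),
      (∀ i, ∃ (ι : Type u) (_ : Fintype ι) (g : A i → EuclideanSpace ℝ ι), ∀ x y,
        1 / 4 * dist x y ^ 2 ≤ ‖g x - g y‖ ^ 2 ∧
        ‖g x - g y‖ ^ 2 ≤ 8 / 3 * T * dist x y ^ 2) ∧
      ∀ (E : Type v) (_ : NormedAddCommGroup E) (_ : InnerProductSpace ℝ E) (f : X → E) (K : ℝ),
        0 ≤ K → (∀ t ∈ ⋃ i, A i, ∀ t' ∈ ⋃ i, A i, ‖f t - f t'‖ ≤ dist t t') →
        (∀ t ∈ ⋃ i, A i, ∀ t' ∈ ⋃ i, A i, dist t t' ≤ K * ‖f t - f t'‖) →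
        L ^ m / (4 * √r) ≤ K := by
  obtain ⟨p, hp, hq, hq2⟩ := exists_p hr hL hLT m
  have hr0 : (0 : ℝ) < r := by exact_mod_cast hr
  have hr1 : (1 : ℝ) ≤ r := by exact_mod_cast hr
  have hT4 : 4 ≤ T := by linarith
  have hT0 : 0 < T := by linarith
  set q : ℝ := (r : ℝ) * p with hqdef
  set e : ℝ := 2 ^ m * r with hedef
  have hqT : 128 * T ≤ q := by nlinarith
  have hq0 : (0 : ℝ) < q := by linarith
  have he : (0 : ℝ) < e := by rw [hedef]; positivity
  let mt : MetricSpace (Wd (GtM.{u} r (2 * p) m)) := mW hT0 he hq0 m (GtM.{u} r (2 * p) m)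
  obtain ⟨S, hSh, hSF, hSη, hSδ, hSN⟩ := exists_Sys hT0 he hq0 (by linarith) m
    (GtM.{u} r (2 * p) m)
  obtain ⟨Λ, hΛ⟩ := exists_cover r m hr
  let lm' : Fin (NN r m) → ℕ → Fin (r + 1) := fun i j =>
    if h : j < m then Λ i ⟨j, h⟩ else 0
  have hne : ∀ (c : Fin (r + 1)), ∃ i, i ≠ c := by
    intro c
    have : Nontrivial (Fin (r + 1)) := Fin.nontrivial_iff_two_le.mpr (by omega)
    exact exists_ne c
  refine ⟨TrM r (Wd (GtM.{u} r (2 * p) m)) m, TrM.inst r _ m,
    fun i => AlP S r (fun l j => j ≠ lm' i l) m Set.univ, ?_, ?_⟩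
  · intro i
    obtain ⟨ι, hι, g, hg⟩ := Qf_euclid (T := T) (lam := lm' i) hT0.le (GtM.{u} r (2 * p) m) S
      hSh m
    refine ⟨ι, hι, fun t => WithLp.toLp 2 (g t.1), fun x y => ?_⟩
    have hnorm : ‖(WithLp.toLp 2 (g x.1) : EuclideanSpace ℝ ι) - WithLp.toLp 2 (g y.1)‖ ^ 2
        = Qf S T (lm' i) m x.1 y.1 := by
      rw [hg, EuclideanSpace.norm_sq_eq]
      refine Finset.sum_congr rfl fun j _ => ?_
      simp only [PiLp.sub_apply, Real.norm_eq_abs, sq_abs]
    rw [hnorm]
    have hdist : dist x y ^ 2 = Phi T e q m (hm S m x.1 y.1) := by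
      have h1 : dist x y = dist x.1 y.1 := rfl
      have h2 := dist_eq_hm S (r := r) (fun a b => by rw [hSF, hSh]; rfl) m x.1 y.1
      rw [h1, h2, hSF, Fun_sq m (hm_nonneg S m _ _)]
    rw [hdist]
    have hsep : ∀ k, ∀ a ∈ S.N (k + 1), ∀ b ∈ S.N (k + 1), a ≠ b →
        2 * T * eta e q k ≤ S.h a b := by
      intro k a ha b hb hab
      rw [hSh]
      exact hSN k a ha b hb hab
    have hup := Qf_le_gen (m := m) S (T := T) (lam := lm' i) (e := e) (q := q) hT he hq0 hsep
      (P := fun l j => j ≠ lm' i l) (fun k j hj => hj) m le_rfl Set.univ Set.univ x.1 y.1 x.2 y.2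
    have hlo := Phi_le_Qf (m := m) S (T := T) (lam := lm' i) (e := e) (q := q) hT
      (by linarith) he hSη (P := fun l j => j ≠ lm' i l) (fun k j hj => hj)
      (fun k => hne (lm' i k)) m le_rfl Set.univ Set.univ x.1 y.1 x.2 y.2 (Or.inl rfl)
    constructor
    · linarith
    · exact hup
  · intro E _ _ f K hK hup hlo
    have hsub : ∀ t ∈ AlM S r m Set.univ,
        t ∈ ⋃ i, AlP S r (fun l j => j ≠ lm' i l) m Set.univ := by
      intro t ht
      obtain ⟨st, hst⟩ := AlP_state S m Set.univ t ht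
      obtain ⟨a, ha⟩ := hΛ fun l => st l
      refine Set.mem_iUnion.mpr ⟨a, ?_⟩
      refine AlP_mono S m (fun l hl j hj => ?_) _ hst
      have h1 : lm' a l = Λ a ⟨l, hl⟩ := by simp only [lm', hl, dif_pos]
      rw [h1, hj]
      exact (ha ⟨l, hl⟩).symm
    refine lower_boundM (q := q) (e := e) hr hp hT4 hL hqdef hedef hq hq2 hT0 hq0 he E
      (GtM.{u} r (2 * p) m)
      (card_GtM _ _ _) S hSh hSδ ?_ f K hK
      (fun t ht t' ht' => hup t (hsub t ht) t' (hsub t' ht'))
      (fun t ht t' ht' => hlo t (hsub t ht) t' (hsub t' ht'))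
    have h5 := StM_all S E (T := T) (r := r) (p := p) (m := m) (e := e) (q := q) hr hp
      (by linarith) hqdef hedef (by linarith) hSF hSη hSδ m le_rfl
    rw [Nat.sub_self, pow_zero] at h5
    exact h5

end

end H799M
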