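import Pool.Agent.Helper799.UnionM.Step

/-!
The main induction step: from level `k` to level `k + 1`.
-/

namespace H799M

open scoped BigOperators
open Finset H799L

noncomputable section

universe u v

lemma av_split {ι : Type*} [Fintype ι] [DecidableEq ι] {Z : Type*} [Fintype Z] {n : ℕ}
    (F : (ι → Fin n × Z) → ℝ) :
    av F = av fun s : ι → Fin n => av fun ζ : ι → Z => F (fun q => (s q, ζ q)) := by
  let e : (ι → Fin n) × (ι → Z) ≃ (ι → Fin n × Z) :=
    { toFun := fun q g => (q.1 g, q.2 g)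
      invFun := fun v => (fun g => (v g).1, fun g => (v g).2)
      left_inv := fun q => rfl
      right_inv := fun v => rfl }
  rw [← av_equiv e, av_prod]
  rfl

lemma av_exch {ι Z : Type*} [Fintype ι] [DecidableEq ι] [Fintype Z] [Nonempty Z] {n : ℕ}
    {E : Type*} [NormedAddCommGroup E]
    (s : ι → Fin n) (C : (ι × Fin n → Z) → (ι → Z) → E) (ψ : (ι × Fin n → Z) → E) :
    (av fun x => av fun ζ => ‖C (upd s ζ x) (res s x) - ψ (upd s ζ x)‖ ^ 2)
      = av fun x => av fun ζ => ‖C x ζ - ψ x‖ ^ 2 :=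
  (av_swp s (fun x ζ => ‖C x ζ - ψ x‖ ^ 2)).symm

variable {W : Type u} [MetricSpace W] (S : Sys W) {r : ℕ}

theorem stepM {E : Type v} [NormedAddCommGroup E] [InnerProductSpace ℝ E]
    {G : Type u} [Fintype G] [DecidableEq G] {k n : ℕ} [NeZero n] {c β : ℝ}
    (hc : 0 ≤ c) (hβ : 0 ≤ β)
    (hcond : c * Fintype.card (G × Fin r) + 4 * S.δ k ≤ S.η (k + 1))
    (hS : StM S E r k G (2 * c) β) :
    StM S E r (k + 1) ((G × Fin r) × Fin n) c
      (√(18 * n * r ^ 3) * (β + 2 * S.F (S.δ k)) + 2 * S.F (S.η (k + 1))) := by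
  intro Z _ _ w hw B hB f hf
  set α : ℝ := β + 2 * S.F (S.δ k) with hα
  have hFδ := S.F_nonneg (S.δ k)
  have hFη := S.F_nonneg (S.η (k + 1))
  have hα0 : 0 ≤ α := by positivity
  have : NeZero n := inferInstance
  -- the reversed functional
  set fr : TrM r W (k + 1) → E := fun t => f (rv t) with hfr
  have hfr' : ∀ t ∈ AlM S r (k + 1) B, ∀ t' ∈ AlM S r (k + 1) B, ‖fr t - fr t'‖ ≤ dist t t' :=
    fun t ht t' ht' => (hf _ (rv_mem S ht) _ (rv_mem S ht')).trans (dist_rv_le t t')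
  have hg1 := good_cfg S (n := n) hc hβ hcond hS w hw hB hf
  have hg2 := good_cfg S (n := n) hc hβ hcond hS w hw hB hfr'
  have V1 := fun x => var_bound hα0 (hg1 x)
  have V2 := fun x => var_bound hα0 (hg2 x)
  -- conditional means
  set ψ₁ : (G → Equiv.Perm (Fin r)) → ((G × Fin r) × Fin n → Z) → E :=
    fun π x => mean fun u => Acfg S w f x u π with hψ₁
  set ψ₂ : (G → Equiv.Perm (Fin r)) → ((G × Fin r) × Fin n → Z) → E :=
    fun π x => mean fun u => Acfg S w fr x u π with hψ₂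
  have V1' : (av fun π : G → Equiv.Perm (Fin r) => av fun s : G × Fin r → Fin n =>
      av fun x : (G × Fin r) × Fin n → Z => av fun ζ : G × Fin r → Z =>
      ‖Acfg S w f x (fun q => (s q, ζ q)) π - ψ₁ π x‖ ^ 2) ≤ 9 / 2 * r ^ 3 * α ^ 2 := by
    have e1 : (av fun π : G → Equiv.Perm (Fin r) => av fun s : G × Fin r → Fin n =>
        av fun x : (G × Fin r) × Fin n → Z => av fun ζ : G × Fin r → Z =>
        ‖Acfg S w f x (fun q => (s q, ζ q)) π - ψ₁ π x‖ ^ 2)
        = av fun x : (G × Fin r) × Fin n → Z => av fun π : G → Equiv.Perm (Fin r) =>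
          av fun u => ‖Acfg S w f x u π - ψ₁ π x‖ ^ 2 := by
      rw [av_comm (fun x : (G × Fin r) × Fin n → Z => fun π : G → Equiv.Perm (Fin r) =>
        av fun u => ‖Acfg S w f x u π - ψ₁ π x‖ ^ 2)]
      refine congrArg av (funext fun π => ?_)
      rw [av_comm]
      refine congrArg av (funext fun x => ?_)
      rw [av_split (fun u => ‖Acfg S w f x u π - ψ₁ π x‖ ^ 2)]
    rw [e1]
    exact av_le fun x => V1 x
  have V2' : (av fun π : G → Equiv.Perm (Fin r) => av fun s : G × Fin r → Fin n =>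
      av fun x : (G × Fin r) × Fin n → Z => av fun ζ : G × Fin r → Z =>
      ‖Acfg S w f x (fun q => (s q, ζ q)) π - ψ₂ (lm Fin.revPerm π) (upd s ζ x)‖ ^ 2)
      ≤ 9 / 2 * r ^ 3 * α ^ 2 := by
    have hrel : ∀ (x : (G × Fin r) × Fin n → Z) (s : G × Fin r → Fin n) (ζ : G × Fin r → Z)
        (π : G → Equiv.Perm (Fin r)), Acfg S w f x (fun q => (s q, ζ q)) π
        = Acfg S w fr (upd s ζ x) (fun q => (s q, res s x q)) (lm Fin.revPerm π) := by
      intro x s ζ π
      show _ = f (rv (tp fun i : Fin (r + 1) => cstM k (S.R (k + 1)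
        (w (Xc (i : ℕ) (upd s ζ x) (fun q => (s q, res s x q)) (lm Fin.revPerm π))))))
      unfold Acfg
      congr 1
      show _ = tp fun i : Fin (r + 1) => cstM k (S.R (k + 1)
        (w (Xc ((Fin.rev i : Fin (r + 1)) : ℕ) (upd s ζ x) (fun q => (s q, res s x q))
          (lm Fin.revPerm π))))
      congr 1
      funext i
      have h1 : ((Fin.rev i : Fin (r + 1)) : ℕ) = r - i := by
        rw [Fin.val_rev]; omega
      rw [h1, Xc_rev (i : ℕ) (by have := i.2; omega)]
    have e1 : (av fun π : G → Equiv.Perm (Fin r) => av fun s : G × Fin r → Fin n =>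
        av fun x : (G × Fin r) × Fin n → Z => av fun ζ : G × Fin r → Z =>
        ‖Acfg S w f x (fun q => (s q, ζ q)) π - ψ₂ (lm Fin.revPerm π) (upd s ζ x)‖ ^ 2)
        = av fun x : (G × Fin r) × Fin n → Z => av fun π : G → Equiv.Perm (Fin r) =>
          av fun u => ‖Acfg S w fr x u π - ψ₂ π x‖ ^ 2 := by
      rw [av_comm (fun x : (G × Fin r) × Fin n → Z => fun π : G → Equiv.Perm (Fin r) =>
        av fun u => ‖Acfg S w fr x u π - ψ₂ π x‖ ^ 2)]
      rw [← av_lm Fin.revPerm (fun π => av fun x : (G × Fin r) × Fin n → Z =>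
        av fun u => ‖Acfg S w fr x u π - ψ₂ π x‖ ^ 2)]
      refine congrArg av (funext fun π => ?_)
      have e2 : (av fun x : (G × Fin r) × Fin n → Z =>
          av fun u => ‖Acfg S w fr x u (lm Fin.revPerm π) - ψ₂ (lm Fin.revPerm π) x‖ ^ 2)
          = av fun s : G × Fin r → Fin n => av fun x : (G × Fin r) × Fin n → Z =>
            av fun ζ : G × Fin r → Z => ‖Acfg S w fr x (fun q => (s q, ζ q)) (lm Fin.revPerm π)
              - ψ₂ (lm Fin.revPerm π) x‖ ^ 2 := by
        rw [av_comm (fun (s : G × Fin r → Fin n) (x : (G × Fin r) × Fin n → Z) =>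
            av fun ζ : G × Fin r → Z => ‖Acfg S w fr x (fun q => (s q, ζ q)) (lm Fin.revPerm π)
              - ψ₂ (lm Fin.revPerm π) x‖ ^ 2)]
        refine congrArg av (funext fun x => ?_)
        rw [av_split (fun u => ‖Acfg S w fr x u (lm Fin.revPerm π)
          - ψ₂ (lm Fin.revPerm π) x‖ ^ 2)]
      rw [e2]
      refine congrArg av (funext fun s => ?_)
      rw [← av_exch s (fun x ζ => Acfg S w fr x (fun q => (s q, ζ q)) (lm Fin.revPerm π))
        (ψ₂ (lm Fin.revPerm π))]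
      refine congrArg av (funext fun x => congrArg av (funext fun ζ => ?_))
      rw [hrel]
    rw [e1]
    exact av_le fun x => V2 x
  set K : (G → Equiv.Perm (Fin r)) → ℝ := fun π => av fun s : G × Fin r → Fin n =>
    av fun x : (G × Fin r) × Fin n → Z => av fun ζ : G × Fin r → Z =>
      ‖ψ₁ π x - ψ₂ (lm Fin.revPerm π) (upd s ζ x)‖ ^ 2 with hK
  have hKle : av K ≤ 18 * r ^ 3 * α ^ 2 := by
    calc av K ≤ av fun π : G → Equiv.Perm (Fin r) => av fun s : G × Fin r → Fin n =>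
        av fun x : (G × Fin r) × Fin n → Z => av fun ζ : G × Fin r → Z =>
          (2 * ‖Acfg S w f x (fun q => (s q, ζ q)) π - ψ₁ π x‖ ^ 2
          + 2 * ‖Acfg S w f x (fun q => (s q, ζ q)) π
            - ψ₂ (lm Fin.revPerm π) (upd s ζ x)‖ ^ 2) := by
          refine av_mono fun π => av_mono fun s => av_mono fun x => av_mono fun ζ => ?_
          have e1 : ψ₁ π x - ψ₂ (lm Fin.revPerm π) (upd s ζ x)
              = (ψ₁ π x - Acfg S w f x (fun q => (s q, ζ q)) π)
                + (Acfg S w f x (fun q => (s q, ζ q)) π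
                  - ψ₂ (lm Fin.revPerm π) (upd s ζ x)) := by abel
          rw [e1, norm_sub_rev (Acfg S w f x (fun q => (s q, ζ q)) π) (ψ₁ π x)]
          exact norm_add_sq_le_two _ _
      _ = 2 * (av fun π : G → Equiv.Perm (Fin r) => av fun s : G × Fin r → Fin n =>
            av fun x : (G × Fin r) × Fin n → Z => av fun ζ : G × Fin r → Z =>
            ‖Acfg S w f x (fun q => (s q, ζ q)) π - ψ₁ π x‖ ^ 2)
          + 2 * (av fun π : G → Equiv.Perm (Fin r) => av fun s : G × Fin r → Fin n =>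
            av fun x : (G × Fin r) × Fin n → Z => av fun ζ : G × Fin r → Z =>
            ‖Acfg S w f x (fun q => (s q, ζ q)) π
              - ψ₂ (lm Fin.revPerm π) (upd s ζ x)‖ ^ 2) := by
          simp only [av_add, av_mul]
      _ ≤ 18 * r ^ 3 * α ^ 2 := by linarith
  have hnn : (0 : ℝ) ≤ n := Nat.cast_nonneg n
  have hpair : (av fun π : G → Equiv.Perm (Fin r) =>
      ((av fun x => av fun x' => ‖ψ₁ π x - ψ₁ π x'‖ ^ 2)
        + (av fun x => av fun x' =>
          ‖ψ₂ (lm Fin.revPerm π) x - ψ₂ (lm Fin.revPerm π) x'‖ ^ 2)))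
      ≤ 36 * n * r ^ 3 * α ^ 2 := by
    have h1 : ∀ π : G → Equiv.Perm (Fin r),
        ((av fun x => av fun x' => ‖ψ₁ π x - ψ₁ π x'‖ ^ 2)
        + (av fun x => av fun x' =>
          ‖ψ₂ (lm Fin.revPerm π) x - ψ₂ (lm Fin.revPerm π) x'‖ ^ 2)) ≤ (2 * n) * K π := by
      intro π
      have := pair_bound (ψ₁ π) (ψ₂ (lm Fin.revPerm π)) (K := K π) le_rfl
      linarith
    refine (av_mono h1).trans ?_
    rw [av_mul]
    have := mul_le_mul_of_nonneg_left hKle (by positivity : 0 ≤ 2 * (n : ℝ))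
    linarith
  -- the average of the conditional means
  set ψ : ((G × Fin r) × Fin n → Z) → E := fun x =>
    mean fun π : G → Equiv.Perm (Fin r) =>
      (1 / 2 : ℝ) • (ψ₁ π x + ψ₂ (lm Fin.revPerm π) x) with hψ
  have hψE : (av fun x => av fun x' => ‖ψ x - ψ x'‖ ^ 2) ≤ (√(18 * n * r ^ 3) * α) ^ 2 := by
    rw [mul_pow, Real.sq_sqrt (by positivity)]
    calc (av fun x => av fun x' => ‖ψ x - ψ x'‖ ^ 2)
        ≤ av fun x => av fun x' => av fun π : G → Equiv.Perm (Fin r) =>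
          ((1 / 2) * ‖ψ₁ π x - ψ₁ π x'‖ ^ 2
          + (1 / 2) * ‖ψ₂ (lm Fin.revPerm π) x - ψ₂ (lm Fin.revPerm π) x'‖ ^ 2) := by
          refine av_mono fun x => av_mono fun x' => ?_
          have e0 : ψ x - ψ x' = mean fun π : G → Equiv.Perm (Fin r) =>
              ((1 / 2 : ℝ) • (ψ₁ π x + ψ₂ (lm Fin.revPerm π) x)
              - (1 / 2 : ℝ) • (ψ₁ π x' + ψ₂ (lm Fin.revPerm π) x')) := mean_sub_mean _ _
          rw [e0]
          refine (norm_mean_sq_le _).trans (av_mono fun π => ?_)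
          have e1 : (1 / 2 : ℝ) • (ψ₁ π x + ψ₂ (lm Fin.revPerm π) x)
              - (1 / 2 : ℝ) • (ψ₁ π x' + ψ₂ (lm Fin.revPerm π) x')
              = (1 / 2 : ℝ) • ((ψ₁ π x - ψ₁ π x')
                + (ψ₂ (lm Fin.revPerm π) x - ψ₂ (lm Fin.revPerm π) x')) := by
            rw [← smul_sub]
            congr 1
            abel
          rw [e1, norm_smul, mul_pow]
          have := norm_add_sq_le_two (ψ₁ π x - ψ₁ π x')
            (ψ₂ (lm Fin.revPerm π) x - ψ₂ (lm Fin.revPerm π) x')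
          have e2 : ‖(1 / 2 : ℝ)‖ ^ 2 = 1 / 4 := by norm_num
          rw [e2]
          linarith
      _ = (1 / 2) * (av fun π : G → Equiv.Perm (Fin r) =>
          ((av fun x => av fun x' => ‖ψ₁ π x - ψ₁ π x'‖ ^ 2)
          + (av fun x => av fun x' =>
            ‖ψ₂ (lm Fin.revPerm π) x - ψ₂ (lm Fin.revPerm π) x'‖ ^ 2))) := by
          have e1 : (fun x : (G × Fin r) × Fin n → Z => av fun x' =>
              av fun π : G → Equiv.Perm (Fin r) => ((1 / 2) * ‖ψ₁ π x - ψ₁ π x'‖ ^ 2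
              + (1 / 2) * ‖ψ₂ (lm Fin.revPerm π) x - ψ₂ (lm Fin.revPerm π) x'‖ ^ 2))
              = fun x => av fun π : G → Equiv.Perm (Fin r) => av fun x' =>
                ((1 / 2) * ‖ψ₁ π x - ψ₁ π x'‖ ^ 2
              + (1 / 2) * ‖ψ₂ (lm Fin.revPerm π) x - ψ₂ (lm Fin.revPerm π) x'‖ ^ 2) :=
            funext fun x => av_comm _
          rw [e1, av_comm]
          simp only [av_add, av_mul]
          ring
      _ ≤ 18 * n * r ^ 3 * α ^ 2 := by linarith
  -- closeness at the constant trees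
  have close := close_of_hd S (k := k) hc hcond w hw
  have hcl : ∀ z, ‖f (cstM (k + 1) (S.R (k + 1) (w z))) - ψ z‖ ≤ S.F (S.η (k + 1)) := by
    intro z
    have haN : ∀ x, S.R (k + 1) (w x) ∈ S.N (k + 1) := fun x => S.R_mem _ _
    have haB : ∀ x, S.R (k + 1) (w x) ∈ B := fun x => hB (k + 1) le_rfl x
    have key : ∀ (g : TrM r W (k + 1) → E),
        (∀ t ∈ AlM S r (k + 1) B, ∀ t' ∈ AlM S r (k + 1) B, ‖g t - g t'‖ ≤ dist t t') →
        ∀ π : G → Equiv.Perm (Fin r),
        ‖g (cstM (k + 1) (S.R (k + 1) (w z))) - mean (fun u => Acfg S w g z u π)‖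
          ≤ S.F (S.η (k + 1)) := by
      intro g hg π
      refine norm_sub_mean_le _ _ fun u => ?_
      refine (hg _ (cst_mem S (k + 1) B _ (haB z) (haN z)) _
        (tuple_mem S _ (fun j => ⟨haB _, haN _⟩)
          (fun j j' => close _ _ (hd_Xc _ _ z u π π) _ _ le_rfl le_rfl))).trans ?_
      refine (dist_tp_le _ _ hFη).mpr fun i => ?_
      rw [dist_cstM]
      refine (S.dist_le _ _).trans (S.F_mono _ _ (S.h_nonneg _ _) ?_)
      have h1 := hd_Xc 0 (i : ℕ) z u π π
      rw [Xc_zero] at h1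
      exact close _ _ h1 _ _ le_rfl le_rfl
    refine norm_sub_mean_le _ _ fun π => ?_
    have h1 := key f hf π
    have h2 : ‖f (cstM (k + 1) (S.R (k + 1) (w z))) - ψ₂ (lm Fin.revPerm π) z‖
        ≤ S.F (S.η (k + 1)) := key fr hfr' (lm Fin.revPerm π)
    have e1 : f (cstM (k + 1) (S.R (k + 1) (w z)))
          - (1 / 2 : ℝ) • (ψ₁ π z + ψ₂ (lm Fin.revPerm π) z)
        = (1 / 2 : ℝ) • ((f (cstM (k + 1) (S.R (k + 1) (w z))) - ψ₁ π z)
          + (f (cstM (k + 1) (S.R (k + 1) (w z))) - ψ₂ (lm Fin.revPerm π) z)) := by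
      simp only [smul_add, smul_sub]
      have : f (cstM (k + 1) (S.R (k + 1) (w z)))
          = (1 / 2 : ℝ) • f (cstM (k + 1) (S.R (k + 1) (w z)))
          + (1 / 2 : ℝ) • f (cstM (k + 1) (S.R (k + 1) (w z))) := by
        rw [← add_smul]; norm_num
      conv_lhs => rw [this]
      abel
    rw [e1, norm_smul]
    have h3 := norm_add_le (f (cstM (k + 1) (S.R (k + 1) (w z))) - ψ₁ π z)
      (f (cstM (k + 1) (S.R (k + 1) (w z))) - ψ₂ (lm Fin.revPerm π) z)
    have e2 : ‖(1 / 2 : ℝ)‖ = 1 / 2 := by norm_num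
    rw [e2]
    linarith
  rw [← av_prod (fun q : ((G × Fin r) × Fin n → Z) × ((G × Fin r) × Fin n → Z) =>
    ‖f (cstM (k + 1) (S.R (k + 1) (w q.1))) - f (cstM (k + 1) (S.R (k + 1) (w q.2)))‖ ^ 2)]
  rw [← av_prod (fun q : ((G × Fin r) × Fin n → Z) × ((G × Fin r) × Fin n → Z) =>
    ‖ψ q.1 - ψ q.2‖ ^ 2)] at hψE
  refine av_sq_le (by positivity) (by positivity) (fun q => norm_nonneg _) (fun q => ?_) hψE
  have e3 : f (cstM (k + 1) (S.R (k + 1) (w q.1))) - f (cstM (k + 1) (S.R (k + 1) (w q.2)))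
      = (f (cstM (k + 1) (S.R (k + 1) (w q.1))) - ψ q.1) + (ψ q.1 - ψ q.2)
        + (ψ q.2 - f (cstM (k + 1) (S.R (k + 1) (w q.2)))) := by abel
  rw [e3]
  refine (norm_add₃_le).trans ?_
  rw [norm_sub_rev (ψ q.2)]
  have := hcl q.1
  have := hcl q.2
  linarith

end

end H799M
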