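import Pool.Agent.Helper799.UnionL.ES

/-!
Resampling along a path of configurations with a random order in each fibre.
-/

namespace H799M

open scoped BigOperators
open Finset H799L

noncomputable section

variable {E : Type*} [NormedAddCommGroup E] [InnerProductSpace ℝ E]

section basic

variable {Ω Ω₁ Ω₂ Ω₃ : Type*} [Fintype Ω] [Fintype Ω₁] [Fintype Ω₂] [Fintype Ω₃]

lemma av3 (f : Ω₁ → Ω₂ → Ω₃ → ℝ) :
    av (fun p : Ω₁ × Ω₂ × Ω₃ => f p.1 p.2.1 p.2.2)
      = av fun a => av fun b => av fun c => f a b c := by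
  rw [av_prod]
  refine congrArg av (funext fun a => ?_)
  rw [av_prod]

/-- Minkowski inequality. -/
lemma mink [Nonempty Ω] {f g : Ω → E} {a b : ℝ} (ha : 0 ≤ a) (hb : 0 ≤ b)
    (hf : av (fun ω => ‖f ω‖ ^ 2) ≤ a ^ 2) (hg : av (fun ω => ‖g ω‖ ^ 2) ≤ b ^ 2) :
    av (fun ω => ‖f ω + g ω‖ ^ 2) ≤ (a + b) ^ 2 := by
  have hc : (0 : ℝ) < Fintype.card Ω := by exact_mod_cast Fintype.card_pos
  have h1 : av (fun ω => ‖f ω‖ * ‖g ω‖) ≤ a * b := by
    have hcs := Finset.sum_mul_sq_le_sq_mul_sq (Finset.univ : Finset Ω) (fun ω => ‖f ω‖)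
      (fun ω => ‖g ω‖)
    have h2 : (av fun ω => ‖f ω‖ * ‖g ω‖) ^ 2
        ≤ av (fun ω => ‖f ω‖ ^ 2) * av (fun ω => ‖g ω‖ ^ 2) := by
      unfold av
      rw [div_pow, div_mul_div_comm, ← sq]
      exact div_le_div_of_nonneg_right hcs (by positivity)
    have h3 : (av fun ω => ‖f ω‖ * ‖g ω‖) ^ 2 ≤ (a * b) ^ 2 := by
      rw [mul_pow]
      refine h2.trans (mul_le_mul hf hg (av_nonneg fun _ => sq_nonneg _) (sq_nonneg _))
    exact (abs_le_of_sq_le_sq' h3 (mul_nonneg ha hb)).2
  calc av (fun ω => ‖f ω + g ω‖ ^ 2)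
      ≤ av (fun ω => (‖f ω‖ ^ 2 + 2 * (‖f ω‖ * ‖g ω‖)) + ‖g ω‖ ^ 2) := by
        refine av_mono fun ω => ?_
        have h4 := pow_le_pow_left₀ (norm_nonneg _) (norm_add_le (f ω) (g ω)) 2
        nlinarith
    _ = av (fun ω => ‖f ω‖ ^ 2) + 2 * av (fun ω => ‖f ω‖ * ‖g ω‖) + av (fun ω => ‖g ω‖ ^ 2) := by
        rw [av_add, av_add, av_mul]
    _ ≤ (a + b) ^ 2 := by nlinarith

lemma mink_sub [Nonempty Ω] (f g h : Ω → E) {a b : ℝ} (ha : 0 ≤ a) (hb : 0 ≤ b)
    (hf : av (fun ω => ‖f ω - g ω‖ ^ 2) ≤ a ^ 2) (hg : av (fun ω => ‖g ω - h ω‖ ^ 2) ≤ b ^ 2) :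
    av (fun ω => ‖f ω - h ω‖ ^ 2) ≤ (a + b) ^ 2 := by
  have := mink ha hb hf hg
  refine le_of_eq_of_le ?_ this
  refine congrArg av (funext fun ω => ?_)
  congr 2
  abel

lemma norm_mean_sq_le [Nonempty Ω] (A : Ω → E) : ‖mean A‖ ^ 2 ≤ av fun ω => ‖A ω‖ ^ 2 := by
  have h := av_sub_sq A 0
  simp only [sub_zero] at h
  rw [h]
  have : 0 ≤ av (fun ω => ‖A ω - mean A‖ ^ 2) := av_nonneg fun _ => sq_nonneg _
  linarith

lemma mean_sub_mean (A C : Ω → E) : mean A - mean C = mean (fun ω => A ω - C ω) := by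
  unfold mean
  rw [← smul_sub, Finset.sum_sub_distrib]

end basic

section perm

variable {G Z : Type*} {r n : ℕ}

/-- Compose the ranks with a fixed permutation. -/
def lm (c : Equiv.Perm (Fin r)) (π : G → Equiv.Perm (Fin r)) : G → Equiv.Perm (Fin r) :=
  fun g => c * π g

/-- Swap the ranks `a`, `b` in the fibres selected by `ε`. -/
def tau (a b : Fin r) (ε : G → Bool) (π : G → Equiv.Perm (Fin r)) : G → Equiv.Perm (Fin r) :=
  fun g => if ε g = true then Equiv.swap a b * π g else π g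

/-- The block with rank `a`. -/
def blk (a : Fin r) (π : G → Equiv.Perm (Fin r)) : G → Fin r := fun g => (π g).symm a

/-- Abstract configuration functional: the two resampling bounds. -/
structure Good [Fintype G] [DecidableEq G] {U : Type*} [Fintype U]
    (A : (G × Fin r → U) → (G → Equiv.Perm (Fin r)) → E) (α : ℝ) : Prop where
  swap : ∀ u π (a b : Fin r), (b : ℕ) = a + 1 →
    (av fun ε : G → Bool => av fun ε' : G → Bool =>
      ‖A u (tau a b ε π) - A u (tau a b ε' π)‖ ^ 2) ≤ α ^ 2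
  refresh : ∀ u π (a : Fin r), (a : ℕ) + 1 = r →
    (av fun v : G → U => av fun v' : G → U =>
      ‖A (upd (blk a π) v u) π - A (upd (blk a π) v' u) π‖ ^ 2) ≤ α ^ 2

variable [Fintype G] [DecidableEq G] {U : Type*} [Fintype U] [Nonempty U]
  {A : (G × Fin r → U) → (G → Equiv.Perm (Fin r)) → E} {α : ℝ}

lemma av_lm (c : Equiv.Perm (Fin r)) (φ : (G → Equiv.Perm (Fin r)) → ℝ) :
    av (fun π => φ (lm c π)) = av φ := by
  let e : (G → Equiv.Perm (Fin r)) ≃ (G → Equiv.Perm (Fin r)) :=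
    { toFun := lm c
      invFun := lm c⁻¹
      left_inv := fun π => by funext g; simp [lm]
      right_inv := fun π => by funext g; simp [lm] }
  exact av_equiv e φ

lemma tau_tau (a b : Fin r) (ε : G → Bool) (π : G → Equiv.Perm (Fin r)) :
    tau a b ε (tau a b ε π) = π := by
  funext g
  unfold tau
  by_cases h : ε g = true
  · simp [h]
  · simp [h]

lemma lm_tau (a b : Fin r) (ε : G → Bool) (π : G → Equiv.Perm (Fin r)) :
    lm (Equiv.swap a b) (tau a b ε π) = tau a b (fun g => !(ε g)) π := by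
  funext g
  unfold tau lm
  by_cases h : ε g = true
  · simp [h]
  · simp [h]

lemma av_tau (a b : Fin r) (ε : G → Bool) (φ : (G → Equiv.Perm (Fin r)) → ℝ) :
    av (fun π => φ (tau a b ε π)) = av φ := by
  let e : (G → Equiv.Perm (Fin r)) ≃ (G → Equiv.Perm (Fin r)) :=
    { toFun := tau a b ε
      invFun := tau a b ε
      left_inv := tau_tau a b ε
      right_inv := tau_tau a b ε }
  exact av_equiv e φ

lemma swap_bound (hA : Good A α) (u : G × Fin r → U) (a b : Fin r) (hab : (b : ℕ) = a + 1) :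
    (av fun π => ‖A u π - A u (lm (Equiv.swap a b) π)‖ ^ 2) ≤ 2 * α ^ 2 := by
  have h1 : ∀ ε : G → Bool, (av fun π => ‖A u π - A u (lm (Equiv.swap a b) π)‖ ^ 2)
      = av fun π => ‖A u (tau a b ε π) - A u (tau a b (fun g => !(ε g)) π)‖ ^ 2 := by
    intro ε
    rw [← av_tau a b ε]
    simp only [lm_tau]
  have h2 : (av fun π => ‖A u π - A u (lm (Equiv.swap a b) π)‖ ^ 2)
      = av fun π => av fun ε : G → Bool =>
        ‖A u (tau a b ε π) - A u (tau a b (fun g => !(ε g)) π)‖ ^ 2 := by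
    rw [av_comm]
    have : (fun ε : G → Bool => av fun π => ‖A u (tau a b ε π)
        - A u (tau a b (fun g => !(ε g)) π)‖ ^ 2)
        = fun _ => (av fun π => ‖A u π - A u (lm (Equiv.swap a b) π)‖ ^ 2) :=
      funext fun ε => (h1 ε).symm
    rw [this, av_const]
  rw [h2]
  refine av_le fun π => ?_
  set C : (G → Bool) → E := fun ε => A u (tau a b ε π) with hC
  have h3 := hA.swap u π a b hab
  rw [av_av_sub_sq] at h3
  let e : (G → Bool) ≃ (G → Bool) :=
    { toFun := fun z' g => !(z' g)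
      invFun := fun z' g => !(z' g)
      left_inv := fun z' => by funext g; simp
      right_inv := fun z' => by funext g; simp }
  have h4 : (av fun ε : G → Bool => ‖C (e ε) - mean C‖ ^ 2) = av fun ε => ‖C ε - mean C‖ ^ 2 :=
    av_equiv e (fun ε => ‖C ε - mean C‖ ^ 2)
  calc (av fun ε : G → Bool => ‖C ε - C (e ε)‖ ^ 2)
      ≤ av fun ε : G → Bool => (2 * ‖C ε - mean C‖ ^ 2 + 2 * ‖C (e ε) - mean C‖ ^ 2) := by
        refine av_mono fun ε => ?_
        have e1 : C ε - C (e ε) = (C ε - mean C) + (mean C - C (e ε)) := by abel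
        rw [e1, norm_sub_rev (C (e ε))]
        exact norm_add_sq_le_two _ _
    _ = 4 * av fun ε => ‖C ε - mean C‖ ^ 2 := by
        rw [av_add, av_mul, av_mul, h4]; ring
    _ ≤ 2 * α ^ 2 := by linarith

lemma chain (hα : 0 ≤ α) (hA : Good A α) (a : ℕ) : ∀ (t : ℕ) (h : a + t < r),
    ∃ c : Equiv.Perm (Fin r), c ⟨a, by omega⟩ = ⟨a + t, h⟩ ∧
      ∀ u, (av fun π => ‖A u π - A u (lm c π)‖ ^ 2) ≤ (3 / 2 * t * α) ^ 2 := by
  intro t
  induction t with
  | zero =>
    intro h
    refine ⟨1, rfl, fun u => ?_⟩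
    have : ∀ π : G → Equiv.Perm (Fin r), lm 1 π = π := fun π => by funext g; simp [lm]
    simp only [this, sub_self, norm_zero]
    simp [av]
  | succ t ih =>
    intro h
    obtain ⟨c, hc, hcu⟩ := ih (by omega)
    set a' : Fin r := ⟨a + t, by omega⟩ with ha'
    set b' : Fin r := ⟨a + (t + 1), h⟩ with hb'
    refine ⟨Equiv.swap a' b' * c, ?_, fun u => ?_⟩
    · rw [Equiv.Perm.mul_apply, hc, Equiv.swap_apply_left]
    · have h1 := swap_bound hA u a' b' rfl
      have h2 : (av fun π => ‖A u (lm c π) - A u (lm (Equiv.swap a' b' * c) π)‖ ^ 2)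
          ≤ (3 / 2 * α) ^ 2 := by
        have e1 : ∀ π : G → Equiv.Perm (Fin r), lm (Equiv.swap a' b' * c) π
            = lm (Equiv.swap a' b') (lm c π) := fun π => by
          funext g; simp [lm, mul_assoc]
        simp only [e1]
        rw [av_lm c (fun π => ‖A u π - A u (lm (Equiv.swap a' b') π)‖ ^ 2)]
        nlinarith [sq_nonneg α]
      have h3 := mink_sub (fun π => A u π) (fun π => A u (lm c π))
        (fun π => A u (lm (Equiv.swap a' b' * c) π)) (by positivity) (by positivity) (hcu u) h2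
      refine h3.trans (le_of_eq ?_)
      push_cast
      ring

lemma refresh_last (hA : Good A α) (π : G → Equiv.Perm (Fin r)) (a : Fin r)
    (ha : (a : ℕ) + 1 = r) :
    (av fun u => av fun v : G → U => ‖A u π - A (upd (blk a π) v u) π‖ ^ 2) ≤ α ^ 2 := by
  have h3 := av_swp (blk a π) (fun (u : G × Fin r → U) (_ : G → U) =>
    av fun v' => ‖A u π - A (upd (blk a π) v' u) π‖ ^ 2)
  simp only [av_const, upd_upd] at h3
  rw [h3]
  exact av_le fun u => hA.refresh u π a ha

lemma refresh_rank (hα : 0 ≤ α) (hA : Good A α) (a : Fin r) :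
    (av fun π => av fun u => av fun v : G → U => ‖A u π - A (upd (blk a π) v u) π‖ ^ 2)
      ≤ (3 * r * α) ^ 2 := by
  have hr : 0 < r := by have := a.2; omega
  obtain ⟨c, hc, hcu⟩ := chain hα hA (a : ℕ) (r - 1 - a) (by omega)
  set z : Fin r := ⟨(a : ℕ) + (r - 1 - a), by omega⟩ with hz
  have hz1 : (z : ℕ) + 1 = r := by simp only [hz]; omega
  have hblk : ∀ π : G → Equiv.Perm (Fin r), blk z (lm c π) = blk a π := by
    intro π
    funext g
    unfold blk lm
    rw [← hc]
    simp [Equiv.Perm.mul_def]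
  set t : ℕ := r - 1 - a with ht
  -- the three legs
  have l1 : (av fun π => av fun u => av fun _ : G → U => ‖A u π - A u (lm c π)‖ ^ 2)
      ≤ (3 / 2 * t * α) ^ 2 := by
    simp only [av_const]
    rw [av_comm]
    exact av_le fun u => hcu u
  have l2 : (av fun π => av fun u => av fun v : G → U =>
      ‖A u (lm c π) - A (upd (blk a π) v u) (lm c π)‖ ^ 2) ≤ α ^ 2 := by
    refine av_le fun π => ?_
    have := refresh_last hA (lm c π) z hz1
    rw [hblk] at this
    exact this
  have l3 : (av fun π => av fun u => av fun v : G → U =>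
      ‖A (upd (blk a π) v u) (lm c π) - A (upd (blk a π) v u) π‖ ^ 2) ≤ (3 / 2 * t * α) ^ 2 := by
    have e1 : ∀ π : G → Equiv.Perm (Fin r), (av fun u => av fun v : G → U =>
        ‖A (upd (blk a π) v u) (lm c π) - A (upd (blk a π) v u) π‖ ^ 2)
        = av fun u => ‖A u π - A u (lm c π)‖ ^ 2 := by
      intro π
      have h3 := av_swp (blk a π) (fun (u : G × Fin r → U) (_ : G → U) =>
        ‖A u (lm c π) - A u π‖ ^ 2)
      simp only [av_const] at h3
      rw [← h3]
      refine congrArg av (funext fun u => ?_)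
      rw [norm_sub_rev]
    simp only [e1]
    rw [av_comm]
    exact av_le fun u => hcu u
  rw [← av3 (fun (π : G → Equiv.Perm (Fin r)) (u : G × Fin r → U) (v : G → U) =>
    ‖A u π - A u (lm c π)‖ ^ 2)] at l1
  rw [← av3 (fun (π : G → Equiv.Perm (Fin r)) (u : G × Fin r → U) (v : G → U) =>
    ‖A u (lm c π) - A (upd (blk a π) v u) (lm c π)‖ ^ 2)] at l2
  rw [← av3 (fun (π : G → Equiv.Perm (Fin r)) (u : G × Fin r → U) (v : G → U) =>
    ‖A (upd (blk a π) v u) (lm c π) - A (upd (blk a π) v u) π‖ ^ 2)] at l3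
  rw [← av3 (fun (π : G → Equiv.Perm (Fin r)) (u : G × Fin r → U) (v : G → U) =>
    ‖A u π - A (upd (blk a π) v u) π‖ ^ 2)]
  have m1 := mink_sub _ _ _ (by positivity) hα l1 l2
  have m2 := mink_sub _ _ _ (by positivity) (by positivity) m1 l3
  refine m2.trans (pow_le_pow_left₀ (by positivity) ?_ 2)
  have htr : (t : ℝ) + 1 ≤ r := by
    have : t + 1 ≤ r := by omega
    exact_mod_cast this
  have : 3 / 2 * (t : ℝ) * α + α + 3 / 2 * t * α = (3 * t + 1) * α := by ring
  rw [this]
  refine mul_le_mul_of_nonneg_right ?_ hα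
  linarith

/-- The variance bound given the order. -/
theorem var_bound (hα : 0 ≤ α) (hA : Good A α) :
    (av fun π => av fun u : G × Fin r → U => ‖A u π - mean (fun u => A u π)‖ ^ 2)
      ≤ 9 / 2 * r ^ 3 * α ^ 2 := by
  have h1 : ∀ π : G → Equiv.Perm (Fin r),
      (av fun u : G × Fin r → U => av fun u' : G × Fin r → U => ‖A u π - A u' π‖ ^ 2)
      ≤ ∑ a : Fin r, av fun u => av fun v : G → U => ‖A u π - A (upd (blk a π) v u) π‖ ^ 2 := by
    intro π
    have hd : ∀ a b : Fin r, a ≠ b → Disjoint (gr (blk a π)) (gr (blk b π)) := by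
      intro a b hab
      rw [Finset.disjoint_left]
      intro p hp hp'
      simp only [gr, blk, Finset.mem_filter, Finset.mem_univ, true_and] at hp hp'
      exact hab ((π p.1).symm.injective (hp.symm.trans hp'))
    have h2 := En_biUnion (fun u : G × Fin r → U => A u π) (fun a : Fin r => gr (blk a π)) hd
      Finset.univ
    have h3 : (Finset.univ : Finset (Fin r)).biUnion (fun a => gr (blk a π)) = Finset.univ := by
      ext p
      simp only [Finset.mem_biUnion, Finset.mem_univ, true_and, iff_true, gr, blk,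
        Finset.mem_filter]
      exact ⟨π p.1 p.2, by simp⟩
    rw [h3, En_univ] at h2
    simp only [En_gr] at h2
    exact h2
  have h2 : (av fun π => av fun u : G × Fin r → U => av fun u' : G × Fin r → U =>
      ‖A u π - A u' π‖ ^ 2) ≤ r * (3 * r * α) ^ 2 := by
    refine (av_mono h1).trans ?_
    rw [av_sum]
    calc ∑ a : Fin r, (av fun π => av fun u => av fun v : G → U =>
          ‖A u π - A (upd (blk a π) v u) π‖ ^ 2)
        ≤ ∑ _a : Fin r, (3 * r * α) ^ 2 := Finset.sum_le_sum fun a _ => refresh_rank hα hA a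
      _ = r * (3 * r * α) ^ 2 := by
          rw [Finset.sum_const, Finset.card_univ, Fintype.card_fin, nsmul_eq_mul]
  have h3 : (av fun π => av fun u : G × Fin r → U => av fun u' : G × Fin r → U =>
      ‖A u π - A u' π‖ ^ 2)
      = 2 * av fun π => av fun u : G × Fin r → U => ‖A u π - mean (fun u => A u π)‖ ^ 2 := by
    rw [← av_mul]
    refine congrArg av (funext fun π => ?_)
    exact av_av_sub_sq (fun u => A u π)
  rw [h3] at h2
  have : (r : ℝ) * (3 * r * α) ^ 2 = 9 * r ^ 3 * α ^ 2 := by ring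
  rw [this] at h2
  linarith

end perm

end

end H799M
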