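import Pool.Agent.Helper799.UnionM.Tree

/-!
The main induction step.
-/

namespace H799M

open scoped BigOperators
open Finset H799L

noncomputable section

universe u v

variable {W : Type u} [MetricSpace W] (S : Sys W) {r : ℕ}

section

variable {E : Type v} [NormedAddCommGroup E] [InnerProductSpace ℝ E]
  {G : Type u} [Fintype G] [DecidableEq G] {k n : ℕ} {c β : ℝ}
  {Z : Type} [Fintype Z] [Nonempty Z]

/-- The configuration functional. -/
def Acfg (w : ((G × Fin r) × Fin n → Z) → W) (f : TrM r W (k + 1) → E)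
    (x : (G × Fin r) × Fin n → Z) (u : G × Fin r → Fin n × Z) (π : G → Equiv.Perm (Fin r)) : E :=
  f (tp fun i : Fin (r + 1) => cstM k (S.R (k + 1) (w (Xc (i : ℕ) x u π))))

lemma close_of_hd {ι : Type u} [Fintype ι] {N : ℝ} (hc : 0 ≤ c)
    (hcond : c * N + 4 * S.δ k ≤ S.η (k + 1)) (w : (ι → Z) → W)
    (hw : ∀ x y, S.h (w x) (w y) ≤ c * hd x y) (z z' : ι → Z) (hz : hd z z' ≤ N)
    (i j : ℕ) (hi : i ≤ k + 1) (hj : j ≤ k + 1) :
    S.h (S.R i (w z)) (S.R j (w z')) ≤ S.η (k + 1) := by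
  have h1 := S.h_tri (S.R i (w z)) (w z) (S.R j (w z'))
  have h2 := S.h_tri (w z) (w z') (S.R j (w z'))
  have h3 := S.R_close k i (w z) hi
  have h4 := S.R_close k j (w z') hj
  rw [S.h_comm] at h3
  have h5 := hw z z'
  have h6 := mul_le_mul_of_nonneg_left hz hc
  linarith

theorem concM (hc : 0 ≤ c) (hβ : 0 ≤ β)
    (hcond : c * Fintype.card (G × Fin r) + 4 * S.δ k ≤ S.η (k + 1))
    (hS : StM S E r k G (2 * c) β)
    (w : ((G × Fin r) × Fin n → Z) → W) (hw : ∀ x y, S.h (w x) (w y) ≤ c * hd x y)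
    {B : Set W} (hB : ∀ j ≤ k + 1, ∀ z, S.R j (w z) ∈ B) {f : TrM r W (k + 1) → E}
    (hf : ∀ t ∈ AlM S r (k + 1) B, ∀ t' ∈ AlM S r (k + 1) B, ‖f t - f t'‖ ≤ dist t t')
    (b : Fin (r + 1) → ((G × Fin r) × Fin n → Z)) (i : Fin (r + 1))
    {Z' : Type} [Fintype Z'] [Nonempty Z'] (y : (G → Z') → ((G × Fin r) × Fin n → Z))
    (h1 : ∀ v v', hd (y v) (y v') ≤ 2 * hd v v')
    (h2 : ∀ j, j ≠ i → ∀ v, hd (b j) (y v) ≤ Fintype.card (G × Fin r))
    (h3 : ∀ j j', j ≠ i → j' ≠ i → hd (b j) (b j') ≤ Fintype.card (G × Fin r)) :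
    (av fun v : G → Z' => av fun v' : G → Z' =>
      ‖f (tp (Function.update (fun j => cstM k (S.R (k + 1) (w (b j)))) i
          (cstM k (S.R (k + 1) (w (y v))))))
        - f (tp (Function.update (fun j => cstM k (S.R (k + 1) (w (b j)))) i
          (cstM k (S.R (k + 1) (w (y v'))))))‖ ^ 2) ≤ (β + 2 * S.F (S.δ k)) ^ 2 := by
  have hFδ := S.F_nonneg (S.δ k)
  set a : Fin (r + 1) → W := fun j => S.R (k + 1) (w (b j)) with ha
  set f' : TrM r W k → E := fun t => f (tp (Function.update (fun j => cstM k (a j)) i t)) with hf'def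
  have haN : ∀ j, a j ∈ S.N (k + 1) := fun j => S.R_mem _ _
  have haB : ∀ j, a j ∈ B := fun j => hB (k + 1) le_rfl _
  have close := close_of_hd S (k := k) hc hcond w hw
  set B' : Set W := B ∩ {b | ∀ j, j ≠ i → S.h (a j) b ≤ S.η (k + 1)} with hB'
  have hmem : ∀ t ∈ AlM S r k B',
      tp (Function.update (fun j => cstM k (a j)) i t) ∈ AlM S r (k + 1) B := by
    intro t ht
    exact upd_mem S _ trivial (fun j _ => ⟨haB j, haN j⟩)
      (fun j j' hj hj' => close _ _ (h3 j j' hj hj') (k + 1) (k + 1) le_rfl le_rfl) ht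
  have hf' : ∀ t ∈ AlM S r k B', ∀ t' ∈ AlM S r k B', ‖f' t - f' t'‖ ≤ dist t t' := by
    intro t ht t' ht'
    refine (hf _ (hmem t ht) _ (hmem t' ht')).trans ?_
    refine (dist_tp_le _ _ dist_nonneg).mpr fun j => ?_
    by_cases hj : j = i
    · subst hj
      rw [Function.update_self, Function.update_self]
    · rw [Function.update_of_ne hj, Function.update_of_ne hj, dist_self]
      exact dist_nonneg
  set w' : (G → Z') → W := fun v => w (y v) with hw'
  have g1 : ∀ v v', S.h (w' v) (w' v') ≤ 2 * c * hd v v' := by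
    intro v v'
    refine (hw _ _).trans ?_
    have := mul_le_mul_of_nonneg_left (h1 v v') hc
    linarith
  have hin : ∀ j ≤ k + 1, ∀ v, S.R j (w' v) ∈ B' := fun j hj v =>
    ⟨hB j hj _, fun l hl => close _ _ (h2 l hl v) (k + 1) j le_rfl hj⟩
  have g3 := hS Z' w' g1 B' (fun j hj v => hin j (by omega) v) f' hf'
  have g4 : ∀ v : G → Z',
      ‖f' (cstM k (S.R (k + 1) (w' v))) - f' (cstM k (S.R k (w' v)))‖ ≤ S.F (S.δ k) := by
    intro v
    refine (hf' _ (cst_mem S k _ _ (hin (k + 1) le_rfl v) (S.N_anti k (S.R_mem _ _))) _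
      (cst_mem S k _ _ (hin k (by omega) v) (S.R_mem _ _))).trans ?_
    rw [dist_cstM]
    exact (S.dist_le _ _).trans (S.F_mono _ _ (S.h_nonneg _ _) (S.R_step k _))
  show (av fun v : G → Z' => av fun v' : G → Z' =>
      ‖f' (cstM k (S.R (k + 1) (w' v))) - f' (cstM k (S.R (k + 1) (w' v')))‖ ^ 2)
      ≤ (β + 2 * S.F (S.δ k)) ^ 2
  rw [← av_prod (fun q : (G → Z') × (G → Z') =>
    ‖f' (cstM k (S.R (k + 1) (w' q.1))) - f' (cstM k (S.R (k + 1) (w' q.2)))‖ ^ 2)]
  rw [← av_prod (fun q : (G → Z') × (G → Z') =>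
    ‖f' (cstM k (S.R k (w' q.1))) - f' (cstM k (S.R k (w' q.2)))‖ ^ 2)] at g3
  refine av_sq_le hβ (by positivity) (fun q => norm_nonneg _) (fun q => ?_) g3
  have e1 := g4 q.1
  have e2 := g4 q.2
  have e3 : f' (cstM k (S.R (k + 1) (w' q.1))) - f' (cstM k (S.R (k + 1) (w' q.2)))
      = (f' (cstM k (S.R (k + 1) (w' q.1))) - f' (cstM k (S.R k (w' q.1))))
        + (f' (cstM k (S.R k (w' q.1))) - f' (cstM k (S.R k (w' q.2))))
        + (f' (cstM k (S.R k (w' q.2))) - f' (cstM k (S.R (k + 1) (w' q.2)))) := by abel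
  rw [e3]
  refine (norm_add₃_le).trans ?_
  rw [norm_sub_rev (f' (cstM k (S.R k (w' q.2))))]
  linarith

theorem good_cfg [NeZero n] (hc : 0 ≤ c) (hβ : 0 ≤ β)
    (hcond : c * Fintype.card (G × Fin r) + 4 * S.δ k ≤ S.η (k + 1))
    (hS : StM S E r k G (2 * c) β)
    (w : ((G × Fin r) × Fin n → Z) → W) (hw : ∀ x y, S.h (w x) (w y) ≤ c * hd x y)
    {B : Set W} (hB : ∀ j ≤ k + 1, ∀ z, S.R j (w z) ∈ B) {f : TrM r W (k + 1) → E}
    (hf : ∀ t ∈ AlM S r (k + 1) B, ∀ t' ∈ AlM S r (k + 1) B, ‖f t - f t'‖ ≤ dist t t')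
    (x : (G × Fin r) × Fin n → Z) :
    Good (fun u π => Acfg S w f x u π) (β + 2 * S.F (S.δ k)) where
  swap := by
    intro u π a b hab
    set i : Fin (r + 1) := ⟨(a : ℕ) + 1, by have := a.2; omega⟩ with hi
    have h := concM S hc hβ hcond hS w hw hB hf (fun j => Xc (j : ℕ) x u π) i
      (Z' := Bool) (fun ε => Xc (i : ℕ) x u (tau a b ε π))
      (fun ε ε' => hd_tau x u π ε ε' _) (fun j _ ε => hd_Xc _ _ x u _ _)
      (fun j j' _ _ => hd_Xc _ _ x u _ _)
    have e : ∀ ε : G → Bool, Acfg S w f x u (tau a b ε π)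
        = f (tp (Function.update (fun j : Fin (r + 1) =>
            cstM k (S.R (k + 1) (w (Xc (j : ℕ) x u π)))) i
            (cstM k (S.R (k + 1) (w (Xc (i : ℕ) x u (tau a b ε π))))))) := by
      intro ε
      unfold Acfg
      congr 2
      funext j
      by_cases hj : j = i
      · subst hj
        rw [Function.update_self]
      · rw [Function.update_of_ne hj]
        rw [Xc_tau hab (j := (j : ℕ)) (fun h' => hj (Fin.ext h'))]
    simp only [e]
    exact h
  refresh := by
    intro u π a ha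
    set i : Fin (r + 1) := Fin.last r with hi
    have h := concM S hc hβ hcond hS w hw hB hf (fun j => Xc (j : ℕ) x u π) i
      (Z' := Fin n × Z) (fun v => Xc (i : ℕ) x (upd (blk a π) v u) π)
      (fun v v' => hd_refresh a x u π v v' _)
      (fun j hj v => by
        have hj' : (j : ℕ) ≤ a := by
          have h1 : (j : ℕ) ≠ r := fun h' => hj (Fin.ext h')
          have h2 := j.2
          omega
        rw [← Xc_refresh hj' x u π v]
        exact hd_Xc _ _ x _ _ _)
      (fun j j' _ _ => hd_Xc _ _ x u _ _)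
    have e : ∀ v : G → Fin n × Z, Acfg S w f x (upd (blk a π) v u) π
        = f (tp (Function.update (fun j : Fin (r + 1) =>
            cstM k (S.R (k + 1) (w (Xc (j : ℕ) x u π)))) i
            (cstM k (S.R (k + 1) (w (Xc (i : ℕ) x (upd (blk a π) v u) π)))))) := by
      intro v
      unfold Acfg
      congr 2
      funext j
      by_cases hj : j = i
      · subst hj
        rw [Function.update_self]
      · rw [Function.update_of_ne hj]
        have hj' : (j : ℕ) ≤ a := by
          have h1 : (j : ℕ) ≠ r := fun h' => hj (Fin.ext h')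
          have h2 := j.2
          omega
        rw [Xc_refresh hj']
    simp only [e]
    exact h

end

section reverse

variable {E : Type v}

/-- Reverse the order of the children. -/
def rv {k : ℕ} (t : TrM r W (k + 1)) : TrM r W (k + 1) := tp fun i => t (Fin.rev i)

lemma rv_mem {k : ℕ} {B : Set W} {t : TrM r W (k + 1)} (ht : t ∈ AlM S r (k + 1) B) :
    rv t ∈ AlM S r (k + 1) B := by
  obtain ⟨i, a, _, h1, h2, t', ht', rfl⟩ := ht
  refine ⟨Fin.rev i, fun j => a (Fin.rev j), trivial, fun j hj => ?_, fun j j' hj hj' => ?_,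
    t', ?_, ?_⟩
  · exact h1 _ (fun h => hj (by rw [← h, Fin.rev_rev]))
  · exact h2 _ _ (fun h => hj (by rw [← h, Fin.rev_rev])) (fun h => hj' (by rw [← h, Fin.rev_rev]))
  · have : {b | ∀ j, j ≠ Fin.rev i → S.h (a (Fin.rev j)) b ≤ S.η (k + 1)}
        = {b | ∀ j, j ≠ i → S.h (a j) b ≤ S.η (k + 1)} := by
      ext b
      simp only [Set.mem_setOf_eq]
      constructor
      · intro h j hj
        have := h (Fin.rev j) (fun h' => hj (Fin.rev_injective h'))
        rwa [Fin.rev_rev] at this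
      · intro h j hj
        exact h _ (fun h' => hj (by rw [← h', Fin.rev_rev]))
    rw [this]
    exact ht'
  · show tp (fun j => (Function.update (fun j => cstM k (a j)) i t' : Fin (r + 1) → TrM r W k)
      (Fin.rev j)) = _
    congr 1
    funext j
    by_cases hj : j = Fin.rev i
    · subst hj
      rw [Fin.rev_rev, Function.update_self, Function.update_self]
    · rw [Function.update_of_ne hj, Function.update_of_ne]
      intro h
      exact hj (by rw [← h, Fin.rev_rev])

lemma dist_rv_le {k : ℕ} (t t' : TrM r W (k + 1)) : dist (rv t) (rv t') ≤ dist t t' := by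
  refine (dist_tp_le _ _ dist_nonneg).mpr fun i => ?_
  exact dist_le_tp (r := r) (k := k) t t' (Fin.rev i)

lemma Xc_rev {G : Type u} {Z : Type} {n : ℕ} (i : ℕ) (hi : i ≤ r)
    (x : (G × Fin r) × Fin n → Z) (s : G × Fin r → Fin n) (ζ : G × Fin r → Z)
    (π : G → Equiv.Perm (Fin r)) :
    Xc (r - i) (upd s ζ x) (fun q => (s q, res s x q)) (lm Fin.revPerm π)
      = Xc i x (fun q => (s q, ζ q)) π := by
  funext p
  have hval : ((lm Fin.revPerm π p.1.1 p.1.2 : Fin r) : ℕ) = r - (π p.1.1 p.1.2 + 1) := by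
    unfold lm
    rw [Equiv.Perm.mul_apply, Fin.revPerm_apply, Fin.val_rev]
  have hlt := (π p.1.1 p.1.2).2
  simp only [Xc, hval]
  by_cases h1 : p.2 = s p.1
  · have hp : p = (p.1, s p.1) := Prod.ext rfl h1
    by_cases h2 : (π p.1.1 p.1.2 : ℕ) < i
    · have h3 : ¬ (r - (↑(π p.1.1 p.1.2) + 1) < r - i) := by omega
      simp only [h1, h2, h3, and_true, if_true, if_false, upd]
    · have h3 : r - (↑(π p.1.1 p.1.2) + 1) < r - i := by omega
      simp only [h1, h2, h3, and_true, if_true, if_false, res]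
      rw [← hp]
  · simp only [h1, and_false, if_false, upd]

end reverse

end

end H799M
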