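import Pool.Agent.Helper799.UnionM.Perm
import Pool.Agent.Helper799.UnionL.Build

/-!
`(r+1)`-ary trees of points and the main induction step.
-/

namespace H799M

open scoped BigOperators
open Finset H799L

noncomputable section

universe u v

/-- `(r+1)`-ary trees of depth `k` with leaves labelled by `W`. -/
def TrM (r : ℕ) (W : Type u) : ℕ → Type u
  | 0 => W
  | k + 1 => Fin (r + 1) → TrM r W k

/-- The sup metric on trees. -/
instance TrM.inst (r : ℕ) (W : Type u) [MetricSpace W] : ∀ k, MetricSpace (TrM r W k)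
  | 0 => inferInstanceAs (MetricSpace W)
  | k + 1 =>
    haveI := TrM.inst r W k
    inferInstanceAs (MetricSpace (Fin (r + 1) → TrM r W k))

/-- The tree with the given children. -/
def tp {r : ℕ} {W : Type u} {k : ℕ} (t : Fin (r + 1) → TrM r W k) : TrM r W (k + 1) := t

/-- The constant tree. -/
def cstM {r : ℕ} {W : Type u} : ∀ k, W → TrM r W k
  | 0, w => w
  | k + 1, w => tp fun _ => cstM k w

lemma dist_tp_le {r : ℕ} {W : Type u} [MetricSpace W] {k : ℕ} (t t' : Fin (r + 1) → TrM r W k)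
    {ρ : ℝ} (hρ : 0 ≤ ρ) : dist (tp t) (tp t') ≤ ρ ↔ ∀ i, dist (t i) (t' i) ≤ ρ :=
  dist_pi_le_iff hρ

lemma dist_le_tp {r : ℕ} {W : Type u} [MetricSpace W] {k : ℕ} (t t' : Fin (r + 1) → TrM r W k)
    (i : Fin (r + 1)) : dist (t i) (t' i) ≤ dist (tp t) (tp t') :=
  (dist_tp_le t t' dist_nonneg).mp le_rfl i

lemma dist_cstM {r : ℕ} {W : Type u} [MetricSpace W] (k : ℕ) (a b : W) :
    dist (cstM k a : TrM r W k) (cstM k b) = dist a b := by
  induction k with
  | zero => rfl
  | succ k ih =>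
    apply le_antisymm
    · exact (dist_tp_le _ _ dist_nonneg).mpr fun _ => ih.le
    · rw [← ih]
      exact dist_le_tp (fun _ => cstM k a) (fun _ => cstM k b) (0 : Fin (r + 1))

variable {W : Type u} [MetricSpace W] (S : Sys W) (r : ℕ)

/-- Admissible trees with all labels in `B`, the moving child at level `k + 1` satisfying
`P k`. -/
def AlP (P : ℕ → Fin (r + 1) → Prop) : ∀ k, Set W → Set (TrM r W k)
  | 0, B => B
  | k + 1, B =>
    {t | ∃ (i : Fin (r + 1)) (a : Fin (r + 1) → W), P k i ∧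
      (∀ j, j ≠ i → a j ∈ B ∧ a j ∈ S.N (k + 1)) ∧
      (∀ j j', j ≠ i → j' ≠ i → S.h (a j) (a j') ≤ S.η (k + 1)) ∧
      ∃ t' ∈ AlP P k (B ∩ {b | ∀ j, j ≠ i → S.h (a j) b ≤ S.η (k + 1)}),
        t = tp (Function.update (fun j => cstM k (a j)) i t')}

variable {r}

lemma cstM_mem (P : ℕ → Fin (r + 1) → Prop) (hP : ∀ k, ∃ i, P k i) :
    ∀ (k : ℕ) (B : Set W) (a : W), a ∈ B → a ∈ S.N k → cstM k a ∈ AlP S r P k B
  | 0, _, _, ha, _ => ha
  | k + 1, B, a, ha, hN => by
    obtain ⟨i, hi⟩ := hP k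
    have h0 : S.h a a ≤ S.η (k + 1) := by rw [S.h_self]; exact S.η_nonneg _
    refine ⟨i, fun _ => a, hi, fun j _ => ⟨ha, hN⟩, fun j j' _ _ => h0, cstM k a, ?_, ?_⟩
    · exact cstM_mem P hP k _ a ⟨ha, fun j _ => h0⟩ (S.N_anti k hN)
    · rw [Function.update_eq_self]
      rfl

lemma upd_mem (P : ℕ → Fin (r + 1) → Prop) {k : ℕ} {B : Set W} {i : Fin (r + 1)}
    {a : Fin (r + 1) → W} (hi : P k i) (h1 : ∀ j, j ≠ i → a j ∈ B ∧ a j ∈ S.N (k + 1))
    (h2 : ∀ j j', j ≠ i → j' ≠ i → S.h (a j) (a j') ≤ S.η (k + 1)) {t : TrM r W k}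
    (ht : t ∈ AlP S r P k (B ∩ {b | ∀ j, j ≠ i → S.h (a j) b ≤ S.η (k + 1)})) :
    tp (Function.update (fun j => cstM k (a j)) i t) ∈ AlP S r P (k + 1) B :=
  ⟨i, a, hi, h1, h2, t, ht, rfl⟩

/-- All admissible trees. -/
abbrev AlM (r : ℕ) : ∀ k, Set W → Set (TrM r W k) := AlP S r (fun _ _ => True)

lemma cst_mem (k : ℕ) (B : Set W) (a : W) (ha : a ∈ B) (hN : a ∈ S.N k) :
    cstM k a ∈ AlM S r k B := cstM_mem S _ (fun _ => ⟨0, trivial⟩) k B a ha hN

lemma tuple_mem {k : ℕ} {B : Set W} (a : Fin (r + 1) → W)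
    (h1 : ∀ j, a j ∈ B ∧ a j ∈ S.N (k + 1)) (h2 : ∀ j j', S.h (a j) (a j') ≤ S.η (k + 1)) :
    tp (fun j => cstM k (a j)) ∈ AlM S r (k + 1) B := by
  have h := upd_mem S (fun _ _ => True) (k := k) (B := B) (i := 0) (a := a) trivial
    (fun j _ => h1 j) (fun j j' _ _ => h2 j j') (t := cstM k (a 0))
    (cst_mem S k _ _ ⟨(h1 0).1, fun j _ => h2 j 0⟩ (S.N_anti k (h1 0).2))
  rw [Function.update_eq_self] at h
  exact h

/-- The concentration statement at level `k`. -/
def StM (E : Type v) [NormedAddCommGroup E] [InnerProductSpace ℝ E] (r k : ℕ)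
    (G : Type u) [Fintype G] [DecidableEq G] (c β : ℝ) : Prop :=
  ∀ (Z : Type) [Fintype Z] [Nonempty Z] (w : (G → Z) → W),
    (∀ x y, S.h (w x) (w y) ≤ c * hd x y) →
    ∀ B : Set W, (∀ j ≤ k, ∀ z, S.R j (w z) ∈ B) →
    ∀ f : TrM r W k → E,
      (∀ t ∈ AlM S r k B, ∀ t' ∈ AlM S r k B, ‖f t - f t'‖ ≤ dist t t') →
      (av fun z : G → Z => av fun z' : G → Z =>
        ‖f (cstM k (S.R k (w z))) - f (cstM k (S.R k (w z')))‖ ^ 2) ≤ β ^ 2

lemma StM_zero (E : Type v) [NormedAddCommGroup E] [InnerProductSpace ℝ E]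
    (G : Type u) [Fintype G] [DecidableEq G] (hG : Fintype.card G = 1) {c : ℝ} (hc : 0 ≤ c) :
    StM S E r 0 G c (S.F c) := by
  intro Z _ _ w hw B hB f hf
  have key : ∀ z z' : G → Z,
      ‖f (cstM 0 (S.R 0 (w z))) - f (cstM 0 (S.R 0 (w z')))‖ ^ 2 ≤ S.F c ^ 2 := by
    intro z z'
    refine pow_le_pow_left₀ (norm_nonneg _) ?_ 2
    have h1 := hf (cstM 0 (S.R 0 (w z))) (hB 0 le_rfl z) (cstM 0 (S.R 0 (w z'))) (hB 0 le_rfl z')
    refine h1.trans ?_
    rw [dist_cstM]
    refine (S.dist_le _ _).trans (S.F_mono _ _ (S.h_nonneg _ _) ?_)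
    rw [S.R_zero, S.R_zero]
    refine (hw z z').trans ?_
    have h2 : hd z z' ≤ 1 := by
      classical
      unfold hd
      have : (Finset.univ.filter fun g => z g ≠ z' g).card ≤ 1 := by
        rw [← hG]
        exact Finset.card_le_univ _
      exact_mod_cast this
    nlinarith [hd_nonneg z z']
  exact av_le fun z => av_le fun z' => key z z'

section config

variable {G : Type u} {Z : Type} {n : ℕ}

/-- The `i`-th configuration on the path from `x`: the blocks of rank `< i` are updated. -/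
def Xc (i : ℕ) (x : (G × Fin r) × Fin n → Z) (u : G × Fin r → Fin n × Z)
    (π : G → Equiv.Perm (Fin r)) : (G × Fin r) × Fin n → Z :=
  fun p => if (π p.1.1 p.1.2 : ℕ) < i ∧ p.2 = (u p.1).1 then (u p.1).2 else x p

lemma Xc_zero (x : (G × Fin r) × Fin n → Z) (u : G × Fin r → Fin n × Z)
    (π : G → Equiv.Perm (Fin r)) : Xc 0 x u π = x := by
  funext p
  simp [Xc]

lemma hd_Xc [Fintype G] (i j : ℕ) (x : (G × Fin r) × Fin n → Z) (u : G × Fin r → Fin n × Z)
    (π π' : G → Equiv.Perm (Fin r)) :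
    hd (Xc i x u π) (Xc j x u π') ≤ Fintype.card (G × Fin r) := by
  classical
  unfold hd
  have hsub : (Finset.univ.filter fun q => Xc i x u π q ≠ Xc j x u π' q)
      ⊆ (Finset.univ : Finset (G × Fin r)).image (fun g => (g, (u g).1)) := by
    intro q hq
    simp only [Finset.mem_filter, Finset.mem_univ, true_and] at hq
    rw [Finset.mem_image]
    by_cases h1 : q.2 = (u q.1).1
    · exact ⟨q.1, Finset.mem_univ _, Prod.ext rfl h1.symm⟩
    · exfalso
      apply hq
      simp only [Xc, h1, and_false, if_false]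
  have h1 := (Finset.card_le_card hsub).trans Finset.card_image_le
  rw [Finset.card_univ] at h1
  exact_mod_cast h1

lemma swap_lt_iff {a b : Fin r} (hab : (b : ℕ) = a + 1) {j : ℕ} (hj : j ≠ (a : ℕ) + 1)
    (c : Fin r) : ((Equiv.swap a b c : Fin r) : ℕ) < j ↔ (c : ℕ) < j := by
  by_cases h1 : c = a
  · subst h1
    rw [Equiv.swap_apply_left]
    omega
  · by_cases h2 : c = b
    · subst h2
      rw [Equiv.swap_apply_right]
      omega
    · rw [Equiv.swap_apply_of_ne_of_ne h1 h2]

lemma Xc_tau {a b : Fin r} (hab : (b : ℕ) = a + 1) {j : ℕ} (hj : j ≠ (a : ℕ) + 1)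
    (x : (G × Fin r) × Fin n → Z) (u : G × Fin r → Fin n × Z)
    (π : G → Equiv.Perm (Fin r)) (ε : G → Bool) :
    Xc j x u (tau a b ε π) = Xc j x u π := by
  funext p
  have : ((tau a b ε π p.1.1 p.1.2 : Fin r) : ℕ) < j ↔ (π p.1.1 p.1.2 : ℕ) < j := by
    unfold tau
    split_ifs
    · rw [Equiv.Perm.mul_apply]
      exact swap_lt_iff hab hj _
    · exact Iff.rfl
  simp only [Xc, this]

lemma hd_tau [Fintype G] {a b : Fin r} (x : (G × Fin r) × Fin n → Z)
    (u : G × Fin r → Fin n × Z) (π : G → Equiv.Perm (Fin r)) (ε ε' : G → Bool) (i : ℕ) :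
    hd (Xc i x u (tau a b ε π)) (Xc i x u (tau a b ε' π)) ≤ 2 * hd ε ε' := by
  classical
  unfold hd
  set D := Finset.univ.filter fun g => ε g ≠ ε' g with hD
  have hsub : (Finset.univ.filter fun q => Xc i x u (tau a b ε π) q ≠ Xc i x u (tau a b ε' π) q)
      ⊆ D.image (fun g => ((g, (π g).symm a), (u (g, (π g).symm a)).1))
        ∪ D.image (fun g => ((g, (π g).symm b), (u (g, (π g).symm b)).1)) := by
    intro q hq
    simp only [Finset.mem_filter, Finset.mem_univ, true_and] at hq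
    have hqD : q.1.1 ∈ D := by
      simp only [hD, Finset.mem_filter, Finset.mem_univ, true_and]
      intro h
      apply hq
      have h5 : tau a b ε π q.1.1 = tau a b ε' π q.1.1 := by
        unfold tau
        rw [h]
      simp only [Xc, h5]
    have hq2 : q.2 = (u q.1).1 := by
      by_contra h
      apply hq
      simp only [Xc, h, and_false, if_false]
    have hab : π q.1.1 q.1.2 = a ∨ π q.1.1 q.1.2 = b := by
      by_contra hcon
      push Not at hcon
      apply hq
      have e1 : ∀ ε : G → Bool, tau a b ε π q.1.1 q.1.2 = π q.1.1 q.1.2 := by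
        intro ε
        unfold tau
        split_ifs
        · rw [Equiv.Perm.mul_apply, Equiv.swap_apply_of_ne_of_ne hcon.1 hcon.2]
        · rfl
      simp only [Xc, e1]
    rw [Finset.mem_union, Finset.mem_image, Finset.mem_image]
    rcases hab with h | h
    · left
      have h' : (π q.1.1).symm a = q.1.2 := by rw [← h]; simp
      refine ⟨q.1.1, hqD, ?_⟩
      rw [h']
      exact Prod.ext rfl hq2.symm
    · right
      have h' : (π q.1.1).symm b = q.1.2 := by rw [← h]; simp
      refine ⟨q.1.1, hqD, ?_⟩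
      rw [h']
      exact Prod.ext rfl hq2.symm
  have h1 := (Finset.card_le_card hsub).trans (Finset.card_union_le _ _)
  have h2 : (D.image (fun g => ((g, (π g).symm a), (u (g, (π g).symm a)).1))).card ≤ D.card :=
    Finset.card_image_le
  have h3 : (D.image (fun g => ((g, (π g).symm b), (u (g, (π g).symm b)).1))).card ≤ D.card :=
    Finset.card_image_le
  have h4 : (Finset.univ.filter fun q =>
      Xc i x u (tau a b ε π) q ≠ Xc i x u (tau a b ε' π) q).card ≤ 2 * D.card := by
    omega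
  exact_mod_cast h4

lemma Xc_refresh {a : Fin r} {j : ℕ} (hj : j ≤ a)
    (x : (G × Fin r) × Fin n → Z) (u : G × Fin r → Fin n × Z)
    (π : G → Equiv.Perm (Fin r)) (v : G → Fin n × Z) :
    Xc j x (upd (blk a π) v u) π = Xc j x u π := by
  funext p
  by_cases h : p.1.2 = (π p.1.1).symm a
  · have h1 : π p.1.1 p.1.2 = a := by rw [h]; simp
    have h2 : ¬ ((π p.1.1 p.1.2 : ℕ) < j) := by rw [h1]; omega
    simp only [Xc, h2, false_and, if_false]
  · have h1 : upd (blk a π) v u p.1 = u p.1 := by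
      simp only [upd, blk, h, if_false]
    simp only [Xc, h1]

lemma hd_refresh [Fintype G] (a : Fin r) (x : (G × Fin r) × Fin n → Z)
    (u : G × Fin r → Fin n × Z) (π : G → Equiv.Perm (Fin r)) (v v' : G → Fin n × Z) (i : ℕ) :
    hd (Xc i x (upd (blk a π) v u) π) (Xc i x (upd (blk a π) v' u) π) ≤ 2 * hd v v' := by
  classical
  unfold hd
  set D := Finset.univ.filter fun g => v g ≠ v' g with hD
  have hsub : (Finset.univ.filter fun q =>
      Xc i x (upd (blk a π) v u) π q ≠ Xc i x (upd (blk a π) v' u) π q)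
      ⊆ D.image (fun g => ((g, (π g).symm a), (v g).1))
        ∪ D.image (fun g => ((g, (π g).symm a), (v' g).1)) := by
    intro q hq
    simp only [Finset.mem_filter, Finset.mem_univ, true_and] at hq
    have hb : q.1.2 = (π q.1.1).symm a := by
      by_contra h
      apply hq
      have h1 : ∀ v : G → Fin n × Z, upd (blk a π) v u q.1 = u q.1 := by
        intro v
        simp only [upd, blk, h, if_false]
      simp only [Xc, h1]
    have hu : ∀ v : G → Fin n × Z, upd (blk a π) v u q.1 = v q.1.1 := by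
      intro v
      simp only [upd, blk, hb, if_true]
    have hqD : q.1.1 ∈ D := by
      simp only [hD, Finset.mem_filter, Finset.mem_univ, true_and]
      intro h
      apply hq
      simp only [Xc, hu, h]
    rw [Finset.mem_union, Finset.mem_image, Finset.mem_image]
    by_cases h1 : q.2 = (v q.1.1).1
    · left
      refine ⟨q.1.1, hqD, Prod.ext (Prod.ext rfl hb.symm) h1.symm⟩
    · by_cases h2 : q.2 = (v' q.1.1).1
      · right
        refine ⟨q.1.1, hqD, Prod.ext (Prod.ext rfl hb.symm) h2.symm⟩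
      · exfalso
        apply hq
        simp only [Xc, hu, h1, h2, and_false, if_false]
  have h1 := (Finset.card_le_card hsub).trans (Finset.card_union_le _ _)
  have h2 : (D.image (fun g => ((g, (π g).symm a), (v g).1))).card ≤ D.card :=
    Finset.card_image_le
  have h3 : (D.image (fun g => ((g, (π g).symm a), (v' g).1))).card ≤ D.card :=
    Finset.card_image_le
  have h4 : (Finset.univ.filter fun q =>
      Xc i x (upd (blk a π) v u) π q ≠ Xc i x (upd (blk a π) v' u) π q).card ≤ 2 * D.card := by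
    omega
  exact_mod_cast h4

end config

end

end H799M
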